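import Mathlib

/-!
Self-maps of the plane `x0 + x1 + x2 = 0` which preserve the set `x0 x1 x2 = 0` and are unramified
outside of it, in integers. `(p, q)` stands for the triple `(-(p + q), p, q)`.
-/

namespace Pool.Agent.Q239.ABC

/-- the product of the distinct primes dividing `m` -/
def R (m : ℕ) : ℕ := ∏ p ∈ m.primeFactors, p

/-- the size of a pair of integers -/
def sz (x : ℤ × ℤ) : ℤ := max |x.1| |x.2|

/-- up to the sign, the product of the three coordinates -/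
def pr (x : ℤ × ℤ) : ℤ := x.1 * x.2 * (x.1 + x.2)

lemma sz_nonneg (x : ℤ × ℤ) : 0 ≤ sz x := le_max_of_le_left (abs_nonneg _)

lemma R_pos (m : ℕ) : 0 < R m := Finset.prod_pos fun _ hp => (Nat.prime_of_mem_primeFactors hp).pos

lemma R_le {m : ℕ} (hm : m ≠ 0) : R m ≤ m := Nat.le_of_dvd (Nat.pos_of_ne_zero hm) (Nat.prod_primeFactors_dvd m)

lemma R_le_of {n K m e : ℕ} (hK : K ≠ 0) (he : e ≠ 0)
    (h : ∀ p : ℕ, p.Prime → p ∣ n → p ∣ K * m * e) (hm : m ≠ 0) : R n ≤ K * R m * e := by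
  apply Nat.le_of_dvd (by have := R_pos m; positivity)
  unfold R
  refine Finset.prod_primes_dvd _ (fun p hp => (Nat.prime_of_mem_primeFactors hp).prime) ?_
  intro p hp
  have hpp := Nat.prime_of_mem_primeFactors hp
  rcases (hpp.dvd_mul.mp (h p hpp (Nat.dvd_of_mem_primeFactors hp))) with h1 | h1
  · rcases hpp.dvd_mul.mp h1 with h2 | h2
    · exact Dvd.dvd.mul_right (Dvd.dvd.mul_right h2 _) _
    · refine Dvd.dvd.mul_right (Dvd.dvd.mul_left ?_ _) _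
      exact Finset.dvd_prod_of_mem (fun p : ℕ => p) (Nat.mem_primeFactors.mpr ⟨hpp, h2, hm⟩)
  · exact Dvd.dvd.mul_left h1 _

/-- a self-map with its numerical data -/
structure Step where
  T : ℤ × ℤ → ℤ × ℤ
  E : ℤ × ℤ → ℤ
  d : ℕ
  k : ℕ
  N : ℕ
  C : ℕ
  hd : 2 ≤ d
  hN : 0 < N
  hC : 0 < C
  up : ∀ x, sz (T x) ≤ C * sz x ^ d
  lo : ∀ x, sz x ^ d ≤ C * sz (T x)
  cont : ∀ x, Int.gcd (T x).1 (T x).2 ∣ N * Int.gcd x.1 x.2 ^ k
  rad : ∀ x, ∀ p : ℕ, p.Prime → (p : ℤ) ∣ pr (T x) → (p : ℤ) ∣ C * pr x * E x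
  Ele : ∀ x, |E x| ≤ C * sz x ^ (d - 1)
  Ene : ∀ x, pr x ≠ 0 → 10 * (Int.gcd x.1 x.2 : ℤ) < sz x → E x ≠ 0 ∧ pr (T x) ≠ 0

lemma mono {x : ℤ × ℤ} (i j : ℕ) : |x.1 ^ i * x.2 ^ j| ≤ sz x ^ (i + j) := by
  rw [abs_mul, abs_pow, abs_pow, pow_add]
  exact mul_le_mul (pow_le_pow_left₀ (abs_nonneg _) (le_max_left _ _) _)
    (pow_le_pow_left₀ (abs_nonneg _) (le_max_right _ _) _) (by positivity)
    (pow_nonneg (sz_nonneg x) _)

/-- the lower bound from two identities -/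
lemma lo_of {x y : ℤ × ℤ} {d e : ℕ} {N C : ℤ} {a b a' b' : ℤ} (hN : 1 ≤ N)
    (h1 : N * x.1 ^ (d + e) = a * y.1 + b * y.2) (h2 : N * x.2 ^ (d + e) = a' * y.1 + b' * y.2)
    (ha : |a| ≤ C * sz x ^ e) (hb : |b| ≤ C * sz x ^ e) (ha' : |a'| ≤ C * sz x ^ e)
    (hb' : |b'| ≤ C * sz x ^ e) (hC : 0 ≤ C) (hd : d ≠ 0) : sz x ^ d ≤ 2 * C * sz y := by
  have hy1 : |y.1| ≤ sz y := le_max_left _ _
  have hy2 : |y.2| ≤ sz y := le_max_right _ _
  have hs := sz_nonneg x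
  have hsy := sz_nonneg y
  have key : ∀ (t a b : ℤ), |a| ≤ C * sz x ^ e → |b| ≤ C * sz x ^ e →
      N * t ^ (d + e) = a * y.1 + b * y.2 → |t| ^ (d + e) ≤ 2 * C * sz y * sz x ^ e := by
    intro t a b ha hb h
    have h3 : |N * t ^ (d + e)| ≤ |a| * |y.1| + |b| * |y.2| := by
      rw [h, ← abs_mul, ← abs_mul]; exact abs_add_le _ _
    rw [abs_mul, abs_pow] at h3
    have h4 : |t| ^ (d + e) ≤ |N| * |t| ^ (d + e) :=
      le_mul_of_one_le_left (by positivity) (le_trans hN (le_abs_self _))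
    have h5 : |a| * |y.1| ≤ C * sz x ^ e * sz y :=
      mul_le_mul ha hy1 (abs_nonneg _) (le_trans (abs_nonneg _) ha)
    have h6 : |b| * |y.2| ≤ C * sz x ^ e * sz y :=
      mul_le_mul hb hy2 (abs_nonneg _) (le_trans (abs_nonneg _) hb)
    nlinarith
  have h7 : sz x ^ (d + e) ≤ 2 * C * sz y * sz x ^ e := by
    rcases max_choice |x.1| |x.2| with h | h
    · have := key x.1 a b ha hb h1
      unfold sz at this ⊢
      rw [h] at this ⊢
      exact this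
    · have := key x.2 a' b' ha' hb' h2
      unfold sz at this ⊢
      rw [h] at this ⊢
      exact this
  rcases hs.eq_or_lt with h0 | h0
  · rw [← h0, zero_pow hd]
    positivity
  · rw [pow_add] at h7
    exact le_of_mul_le_mul_right h7 (pow_pos h0 e)

end Pool.Agent.Q239.ABC
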