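import Mathlib
import Pool.Agent.Q239.ABC.Step

/-!
Three unramified self-maps: signatures `(3,3,3)`, `(2,4,4)`, `(2,3,6)`.
-/

namespace Pool.Agent.Q239.ABC

lemma abs1 (x : ℤ × ℤ) : |x.1| ≤ sz x := le_max_left _ _
lemma abs2 (x : ℤ × ℤ) : |x.2| ≤ sz x := le_max_right _ _

lemma lin_le {x : ℤ × ℤ} (a b : ℤ) : |a * x.1 + b * x.2| ≤ (|a| + |b|) * sz x := by
  calc |a * x.1 + b * x.2| ≤ |a * x.1| + |b * x.2| := abs_add_le _ _
    _ = |a| * |x.1| + |b| * |x.2| := by rw [abs_mul, abs_mul]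
    _ ≤ |a| * sz x + |b| * sz x :=
        add_le_add (mul_le_mul_of_nonneg_left (abs1 x) (abs_nonneg _))
          (mul_le_mul_of_nonneg_left (abs2 x) (abs_nonneg _))
    _ = _ := by ring

/-- a linear relation between the coordinates bounds the size by a multiple of the gcd -/
lemma sz_le_of_rel {x : ℤ × ℤ} {a b : ℤ} (hab : IsCoprime a b) (ha : |a| ≤ 10) (hb : |b| ≤ 10)
    (h : a * x.1 = b * x.2) : sz x ≤ 10 * (Int.gcd x.1 x.2 : ℤ) := by
  have h1 : b ∣ x.1 := hab.symm.dvd_of_dvd_mul_left ⟨x.2, h⟩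
  obtain ⟨t, ht⟩ := h1
  by_cases hb0 : b = 0
  · subst hb0
    have ha1 : a = 1 ∨ a = -1 := by
      have := Int.isUnit_iff.mp (isCoprime_zero_right.mp hab)
      exact this
    have hx1 : x.1 = 0 := by rw [ht]; simp
    have hsz : sz x = |x.2| := by
      unfold sz; rw [hx1, abs_zero]; exact max_eq_right (abs_nonneg _)
    have hg : (Int.gcd x.1 x.2 : ℤ) = |x.2| := by
      rw [hx1, Int.gcd_zero_left, Int.natCast_natAbs]
    rw [hsz, hg]; nlinarith [abs_nonneg x.2]
  · have h2 : x.2 = a * t := by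
      have : b * x.2 = b * (a * t) := by rw [← h, ht]; ring
      exact mul_left_cancel₀ hb0 this
    have hg : (Int.gcd x.1 x.2 : ℤ) = |t| := by
      rw [ht, h2, Int.gcd_mul_right, (Int.isCoprime_iff_gcd_eq_one.mp hab.symm), one_mul,
        Int.natCast_natAbs]
    rw [hg]
    apply max_le
    · rw [ht, abs_mul]; exact mul_le_mul_of_nonneg_right hb (abs_nonneg _)
    · rw [h2, abs_mul]; exact mul_le_mul_of_nonneg_right ha (abs_nonneg _)

lemma dvd_gcd_pow {x y : ℤ × ℤ} {N k : ℕ} {a b a' b' : ℤ}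
    (h1 : (N : ℤ) * x.1 ^ k = a * y.1 + b * y.2) (h2 : (N : ℤ) * x.2 ^ k = a' * y.1 + b' * y.2) :
    Int.gcd y.1 y.2 ∣ N * Int.gcd x.1 x.2 ^ k := by
  rw [← Int.pow_gcd_pow]
  have e : N * Int.gcd (x.1 ^ k) (x.2 ^ k) = Int.gcd ((N : ℤ) * x.1 ^ k) ((N : ℤ) * x.2 ^ k) := by
    rw [Int.gcd_mul_left]; simp
  rw [e, h1, h2]
  have g1 : (Int.gcd y.1 y.2 : ℤ) ∣ y.1 := Int.gcd_dvd_left _ _
  have g2 : (Int.gcd y.1 y.2 : ℤ) ∣ y.2 := Int.gcd_dvd_right _ _
  exact Int.dvd_gcd (dvd_add (Dvd.dvd.mul_left g1 _) (Dvd.dvd.mul_left g2 _))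
    (dvd_add (Dvd.dvd.mul_left g1 _) (Dvd.dvd.mul_left g2 _))

/-- signature `(3,3,3)` -/
def T33 (x : ℤ × ℤ) : ℤ × ℤ := (x.1 * (x.1 + 2 * x.2) ^ 3, -(x.2 * (2 * x.1 + x.2) ^ 3))

/-- signature `(2,4,4)` -/
def T24 (x : ℤ × ℤ) : ℤ × ℤ := (-(4 * x.1 * x.2), (x.1 + x.2) ^ 2)

/-- signature `(2,3,6)` -/
def T26 (x : ℤ × ℤ) : ℤ × ℤ := (-(x.1 + 4 * x.2) ^ 3, 27 * x.2 * x.1 ^ 2)

lemma pr33 (x : ℤ × ℤ) : pr (T33 x) =
    -(pr x * ((x.1 + 2 * x.2) * (2 * x.1 + x.2) * (x.1 - x.2)) ^ 3) := by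
  unfold pr T33; ring

lemma pr24 (x : ℤ × ℤ) : pr (T24 x) = -(4 * pr x * (x.1 + x.2) * (x.1 - x.2) ^ 2) := by
  unfold pr T24; ring

lemma pr26 (x : ℤ × ℤ) : pr (T26 x) =
    27 * pr x * x.1 * (x.1 + 4 * x.2) ^ 3 * (x.1 - 8 * x.2) ^ 2 := by
  unfold pr T26; ring

lemma prime_dvd_pow {p : ℕ} (hp : p.Prime) {a : ℤ} {n : ℕ} (h : (p : ℤ) ∣ a ^ n) : (p : ℤ) ∣ a :=
  Prime.dvd_of_dvd_pow (Nat.prime_iff_prime_int.mp hp) h

def step33 : Step where
  T := T33
  E := fun x => (x.1 + 2 * x.2) * (2 * x.1 + x.2) * (x.1 - x.2)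
  d := 4
  k := 7
  N := 81
  C := 1000
  hd := by norm_num
  hN := by norm_num
  hC := by norm_num
  up := by
    intro x
    have hs := sz_nonneg x
    have h1 := abs1 x
    have h2 := abs2 x
    have h3 : |x.1 + 2 * x.2| ≤ 3 * sz x := by have := lin_le (x := x) 1 2; norm_num at this; exact this
    have h4 : |2 * x.1 + x.2| ≤ 3 * sz x := by have := lin_le (x := x) 2 1; norm_num at this; exact this
    apply max_le
    · show |x.1 * (x.1 + 2 * x.2) ^ 3| ≤ _
      rw [abs_mul, abs_pow]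
      calc |x.1| * |x.1 + 2 * x.2| ^ 3 ≤ sz x * (3 * sz x) ^ 3 := by gcongr
        _ ≤ _ := by push_cast; nlinarith [pow_nonneg hs 4]
    · show |-(x.2 * (2 * x.1 + x.2) ^ 3)| ≤ _
      rw [abs_neg, abs_mul, abs_pow]
      calc |x.2| * |2 * x.1 + x.2| ^ 3 ≤ sz x * (3 * sz x) ^ 3 := by gcongr
        _ ≤ _ := by push_cast; nlinarith [pow_nonneg hs 4]
  lo := by
    intro x
    have m0 := abs_le.mp (mono (x := x) 3 0)
    have m1 := abs_le.mp (mono (x := x) 2 1)
    have m2 := abs_le.mp (mono (x := x) 1 2)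
    have m3 := abs_le.mp (mono (x := x) 0 3)
    norm_num at m0 m1 m2 m3
    have := lo_of (x := x) (y := T33 x) (d := 4) (e := 3) (N := 81) (C := 500)
      (a := 81 * x.1 ^ 3 + 154 * (x.1 ^ 2 * x.2) + 88 * (x.1 * x.2 ^ 2) + 16 * x.2 ^ 3)
      (b := 80 * x.1 ^ 3 + 128 * (x.1 ^ 2 * x.2) + 128 * (x.1 * x.2 ^ 2))
      (a' := -(128 * (x.1 ^ 2 * x.2) + 128 * (x.1 * x.2 ^ 2) + 80 * x.2 ^ 3))
      (b' := -(16 * x.1 ^ 3 + 88 * (x.1 ^ 2 * x.2) + 154 * (x.1 * x.2 ^ 2) + 81 * x.2 ^ 3))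
      (by norm_num) (by unfold T33; ring) (by unfold T33; ring)
      (by rw [abs_le]; constructor <;> linarith) (by rw [abs_le]; constructor <;> linarith)
      (by rw [abs_le]; constructor <;> linarith) (by rw [abs_le]; constructor <;> linarith)
      (by norm_num) (by norm_num)
    norm_num at this ⊢
    exact this
  cont := by
    intro x
    exact dvd_gcd_pow (x := x) (y := T33 x) (N := 81) (k := 7)
      (a := 81 * x.1 ^ 3 + 154 * (x.1 ^ 2 * x.2) + 88 * (x.1 * x.2 ^ 2) + 16 * x.2 ^ 3)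
      (b := 80 * x.1 ^ 3 + 128 * (x.1 ^ 2 * x.2) + 128 * (x.1 * x.2 ^ 2))
      (a' := -(128 * (x.1 ^ 2 * x.2) + 128 * (x.1 * x.2 ^ 2) + 80 * x.2 ^ 3))
      (b' := -(16 * x.1 ^ 3 + 88 * (x.1 ^ 2 * x.2) + 154 * (x.1 * x.2 ^ 2) + 81 * x.2 ^ 3))
      (by unfold T33; push_cast; ring) (by unfold T33; push_cast; ring)
  rad := by
    intro x p hp h
    rw [pr33, dvd_neg] at h
    rcases (Nat.prime_iff_prime_int.mp hp).dvd_or_dvd h with h1 | h1
    · exact Dvd.dvd.mul_right (Dvd.dvd.mul_left h1 _) _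
    · exact Dvd.dvd.mul_left (prime_dvd_pow hp h1) _
  Ele := by
    intro x
    have hs := sz_nonneg x
    have h3 : |x.1 + 2 * x.2| ≤ 3 * sz x := by have := lin_le (x := x) 1 2; norm_num at this; exact this
    have h4 : |2 * x.1 + x.2| ≤ 3 * sz x := by have := lin_le (x := x) 2 1; norm_num at this; exact this
    have h5 : |x.1 - x.2| ≤ 2 * sz x := by
      have := lin_le (x := x) 1 (-1); norm_num at this; exact this
    rw [abs_mul, abs_mul]
    calc |x.1 + 2 * x.2| * |2 * x.1 + x.2| * |x.1 - x.2| ≤ (3 * sz x) * (3 * sz x) * (2 * sz x) := by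
          gcongr
      _ ≤ _ := by push_cast; norm_num; nlinarith [pow_nonneg hs 3]
  Ene := by
    intro x hx h
    have hE : (x.1 + 2 * x.2) * (2 * x.1 + x.2) * (x.1 - x.2) ≠ 0 := by
      refine mul_ne_zero (mul_ne_zero ?_ ?_) ?_ <;> intro h0 <;> apply absurd h (not_lt.mpr _)
      · exact sz_le_of_rel (a := 1) (b := -2) isCoprime_one_left (by norm_num) (by norm_num)
          (by linarith)
      · exact sz_le_of_rel (a := 2) (b := -1) (isCoprime_one_right.neg_right) (by norm_num)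
          (by norm_num) (by linarith)
      · exact sz_le_of_rel (a := 1) (b := 1) isCoprime_one_left (by norm_num) (by norm_num)
          (by linarith)
    refine ⟨hE, ?_⟩
    rw [pr33]
    exact neg_ne_zero.mpr (mul_ne_zero hx (pow_ne_zero _ hE))

def step24 : Step where
  T := T24
  E := fun x => x.1 - x.2
  d := 2
  k := 3
  N := 4
  C := 1000
  hd := by norm_num
  hN := by norm_num
  hC := by norm_num
  up := by
    intro x
    have hs := sz_nonneg x
    have h1 := abs1 x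
    have h2 := abs2 x
    have h3 : |x.1 + x.2| ≤ 2 * sz x := by have := lin_le (x := x) 1 1; norm_num at this; exact this
    apply max_le
    · show |-(4 * x.1 * x.2)| ≤ _
      rw [abs_neg, abs_mul, abs_mul]
      calc |4| * |x.1| * |x.2| ≤ |4| * sz x * sz x := by gcongr
        _ ≤ _ := by push_cast; norm_num; nlinarith [pow_nonneg hs 2]
    · show |(x.1 + x.2) ^ 2| ≤ _
      rw [abs_pow]
      calc |x.1 + x.2| ^ 2 ≤ (2 * sz x) ^ 2 := by gcongr
        _ ≤ _ := by push_cast; nlinarith [pow_nonneg hs 2]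
  lo := by
    intro x
    have hs := sz_nonneg x
    have h3 : |2 * x.1 + x.2| ≤ 3 * sz x := by have := lin_le (x := x) 2 1; norm_num at this; exact this
    have h4 : |x.1 + 2 * x.2| ≤ 3 * sz x := by have := lin_le (x := x) 1 2; norm_num at this; exact this
    have h5 : |4 * x.1| ≤ 4 * sz x := by
      rw [abs_mul]; norm_num; exact abs1 x
    have h6 : |4 * x.2| ≤ 4 * sz x := by
      rw [abs_mul]; norm_num; exact abs2 x
    have := lo_of (x := x) (y := T24 x) (d := 2) (e := 1) (N := 4) (C := 500)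
      (a := 2 * x.1 + x.2) (b := 4 * x.1) (a' := x.1 + 2 * x.2) (b' := 4 * x.2)
      (by norm_num) (by unfold T24; ring) (by unfold T24; ring)
      (by rw [pow_one]; linarith) (by rw [pow_one]; linarith)
      (by rw [pow_one]; linarith) (by rw [pow_one]; linarith) (by norm_num) (by norm_num)
    norm_num at this ⊢
    exact this
  cont := by
    intro x
    exact dvd_gcd_pow (x := x) (y := T24 x) (N := 4) (k := 3)
      (a := 2 * x.1 + x.2) (b := 4 * x.1) (a' := x.1 + 2 * x.2) (b' := 4 * x.2)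
      (by unfold T24; push_cast; ring) (by unfold T24; push_cast; ring)
  rad := by
    intro x p hp h
    rw [pr24, dvd_neg] at h
    have hpi := Nat.prime_iff_prime_int.mp hp
    rcases hpi.dvd_or_dvd h with h1 | h1
    · rcases hpi.dvd_or_dvd h1 with h2 | h2
      · rcases hpi.dvd_or_dvd h2 with h3 | h3
        · refine Dvd.dvd.mul_right (Dvd.dvd.mul_right (h3.trans ?_) _) _
          norm_num
        · exact Dvd.dvd.mul_right (Dvd.dvd.mul_left h3 _) _
      · refine Dvd.dvd.mul_right (Dvd.dvd.mul_left ?_ _) _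
        exact Dvd.dvd.mul_left h2 _
    · exact Dvd.dvd.mul_left (prime_dvd_pow hp h1) _
  Ele := by
    intro x
    have hs := sz_nonneg x
    have h5 : |x.1 - x.2| ≤ 2 * sz x := by
      have := lin_le (x := x) 1 (-1); norm_num at this; exact this
    norm_num
    linarith
  Ene := by
    intro x hx h
    have hE : x.1 - x.2 ≠ 0 := by
      intro h0; apply absurd h (not_lt.mpr _)
      exact sz_le_of_rel (a := 1) (b := 1) isCoprime_one_left (by norm_num) (by norm_num)
          (by linarith)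
    refine ⟨hE, ?_⟩
    rw [pr24]
    have hx3 : x.1 + x.2 ≠ 0 := by
      intro h0; apply hx; unfold pr; rw [h0, mul_zero]
    exact neg_ne_zero.mpr (mul_ne_zero (mul_ne_zero (mul_ne_zero (by norm_num) hx) hx3)
      (pow_ne_zero _ hE))

def step26 : Step where
  T := T26
  E := fun x => (x.1 + 4 * x.2) * (x.1 - 8 * x.2)
  d := 3
  k := 5
  N := 6912
  C := 3000000
  hd := by norm_num
  hN := by norm_num
  hC := by norm_num
  up := by
    intro x
    have hs := sz_nonneg x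
    have h1 := abs1 x
    have h2 := abs2 x
    have h3 : |x.1 + 4 * x.2| ≤ 5 * sz x := by have := lin_le (x := x) 1 4; norm_num at this; exact this
    apply max_le
    · show |-(x.1 + 4 * x.2) ^ 3| ≤ _
      rw [abs_neg, abs_pow]
      calc |x.1 + 4 * x.2| ^ 3 ≤ (5 * sz x) ^ 3 := by gcongr
        _ ≤ _ := by push_cast; nlinarith [pow_nonneg hs 3]
    · show |27 * x.2 * x.1 ^ 2| ≤ _
      rw [abs_mul, abs_mul, abs_pow]
      calc |27| * |x.2| * |x.1| ^ 2 ≤ |27| * sz x * sz x ^ 2 := by gcongr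
        _ ≤ _ := by push_cast; norm_num; nlinarith [pow_nonneg hs 3]
  lo := by
    intro x
    have m0 := abs_le.mp (mono (x := x) 2 0)
    have m1 := abs_le.mp (mono (x := x) 1 1)
    have m2 := abs_le.mp (mono (x := x) 0 2)
    norm_num at m0 m1 m2
    have := lo_of (x := x) (y := T26 x) (d := 3) (e := 2) (N := 6912) (C := 1500000)
      (a := -(6912 * x.1 ^ 2))
      (b := -(256 * (12 * x.1 ^ 2 + 48 * (x.1 * x.2) + 64 * x.2 ^ 2)))
      (a' := -(27 * (4 * x.2 ^ 2 - 3 * (x.1 * x.2))))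
      (b' := 96 * x.2 ^ 2 + 32 * (x.1 * x.2) + 3 * x.1 ^ 2)
      (by norm_num) (by unfold T26; ring) (by unfold T26; ring)
      (by rw [abs_le]; constructor <;> linarith) (by rw [abs_le]; constructor <;> linarith)
      (by rw [abs_le]; constructor <;> linarith) (by rw [abs_le]; constructor <;> linarith)
      (by norm_num) (by norm_num)
    norm_num at this ⊢
    exact this
  cont := by
    intro x
    exact dvd_gcd_pow (x := x) (y := T26 x) (N := 6912) (k := 5)
      (a := -(6912 * x.1 ^ 2))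
      (b := -(256 * (12 * x.1 ^ 2 + 48 * (x.1 * x.2) + 64 * x.2 ^ 2)))
      (a' := -(27 * (4 * x.2 ^ 2 - 3 * (x.1 * x.2))))
      (b' := 96 * x.2 ^ 2 + 32 * (x.1 * x.2) + 3 * x.1 ^ 2)
      (by unfold T26; push_cast; ring) (by unfold T26; push_cast; ring)
  rad := by
    intro x p hp h
    rw [pr26] at h
    have hpi := Nat.prime_iff_prime_int.mp hp
    rcases hpi.dvd_or_dvd h with h1 | h1
    · rcases hpi.dvd_or_dvd h1 with h2 | h2
      · rcases hpi.dvd_or_dvd h2 with h3 | h3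
        · rcases hpi.dvd_or_dvd h3 with h4 | h4
          · -- `p ∣ 27`
            have h27 : (p : ℤ) ∣ 3 := prime_dvd_pow hp (n := 3) (by norm_num; exact h4)
            exact Dvd.dvd.mul_right (Dvd.dvd.mul_right (h27.trans (by norm_num)) _) _
          · exact Dvd.dvd.mul_right (Dvd.dvd.mul_left h4 _) _
        · refine Dvd.dvd.mul_right (Dvd.dvd.mul_left ?_ _) _
          unfold pr
          exact Dvd.dvd.mul_right (Dvd.dvd.mul_right h3 _) _
      · exact Dvd.dvd.mul_left (Dvd.dvd.mul_right (prime_dvd_pow hp h2) _) _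
    · exact Dvd.dvd.mul_left (Dvd.dvd.mul_left (prime_dvd_pow hp h1) _) _
  Ele := by
    intro x
    have hs := sz_nonneg x
    have h3 : |x.1 + 4 * x.2| ≤ 5 * sz x := by have := lin_le (x := x) 1 4; norm_num at this; exact this
    have h5 : |x.1 - 8 * x.2| ≤ 9 * sz x := by
      have := lin_le (x := x) 1 (-8); norm_num at this
      have e : x.1 - 8 * x.2 = x.1 + -(8 * x.2) := by ring
      rw [e]; exact this
    rw [abs_mul]
    calc |x.1 + 4 * x.2| * |x.1 - 8 * x.2| ≤ (5 * sz x) * (9 * sz x) := by gcongr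
      _ ≤ _ := by push_cast; norm_num; nlinarith [pow_nonneg hs 2]
  Ene := by
    intro x hx h
    have hE : (x.1 + 4 * x.2) * (x.1 - 8 * x.2) ≠ 0 := by
      refine mul_ne_zero ?_ ?_ <;> intro h0 <;> apply absurd h (not_lt.mpr _)
      · exact sz_le_of_rel (a := 1) (b := -4) isCoprime_one_left (by norm_num) (by norm_num)
          (by linarith)
      · exact sz_le_of_rel (a := 1) (b := 8) isCoprime_one_left (by norm_num) (by norm_num)
          (by linarith)
    refine ⟨hE, ?_⟩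
    rw [pr26]
    have hx1 : x.1 ≠ 0 := by
      intro h0; apply hx; unfold pr; rw [h0]; ring
    have hE1 := left_ne_zero_of_mul hE
    have hE2 := right_ne_zero_of_mul hE
    exact mul_ne_zero (mul_ne_zero (mul_ne_zero (mul_ne_zero (by norm_num) hx) hx1)
      (pow_ne_zero _ hE1)) (pow_ne_zero _ hE2)

end Pool.Agent.Q239.ABC
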