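import Mathlib
import Pool.Agent.Q239.ABC.Step

/-! Iterates of a step. -/

namespace Pool.Agent.Q239.ABC

lemma sz_pos {x : ℤ × ℤ} (h : pr x ≠ 0) : 1 ≤ sz x := by
  have h1 : x.1 ≠ 0 := by rintro h0; apply h; unfold pr; rw [h0]; ring
  exact le_trans (Int.one_le_abs h1) (le_max_left _ _)

lemma gcd_pos {x : ℤ × ℤ} (h : pr x ≠ 0) : 0 < Int.gcd x.1 x.2 := by
  have h1 : x.1 ≠ 0 := by rintro h0; apply h; unfold pr; rw [h0]; ring
  exact Int.gcd_pos_of_ne_zero_left _ h1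

/-- all the bounds for the `j`-th iterate -/
def Good (S : Step) (j : ℕ) (K : ℕ) (x : ℤ × ℤ) : Prop :=
  pr (S.T^[j] x) ≠ 0 ∧ Int.gcd (S.T^[j] x).1 (S.T^[j] x).2 ≤ K ∧
  sz x ^ (S.d ^ j) ≤ K * sz (S.T^[j] x) ∧ sz (S.T^[j] x) ≤ K * sz x ^ (S.d ^ j) ∧
  (R (pr (S.T^[j] x)).natAbs : ℤ) ≤ K * R (pr x).natAbs * sz x ^ (S.d ^ j - 1)

theorem iter (S : Step) (j : ℕ) : ∃ K n0 : ℕ, 0 < K ∧ ∀ x : ℤ × ℤ, pr x ≠ 0 →
    Int.gcd x.1 x.2 = 1 → (n0 : ℤ) ≤ sz x → Good S j K x := by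
  induction j with
  | zero =>
    refine ⟨1, 0, one_pos, fun x hx hg _ => ⟨hx, ?_, ?_, ?_, ?_⟩⟩ <;> simp [hg]
  | succ j ih =>
    obtain ⟨K, n0, hK, ih⟩ := ih
    refine ⟨S.N * K ^ S.k + S.C * K ^ S.d + S.C ^ 2 * K ^ S.d, n0 + 10 * K ^ 2 + 1, ?_, ?_⟩
    · have := S.hN; positivity
    intro x hx hg hn
    have hs1 := sz_pos hx
    have hn0 : (n0 : ℤ) ≤ sz x := by push_cast at hn; nlinarith [sq_nonneg (K : ℤ)]
    obtain ⟨h1, h2, h3, h4, h5⟩ := ih x hx hg hn0
    set z := S.T^[j] x with hz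
    have hz' : S.T^[j + 1] x = S.T z := by rw [Function.iterate_succ_apply']
    have hD1 : 1 ≤ S.d ^ j := Nat.one_le_pow _ _ (by have := S.hd; omega)
    have hKz : (1 : ℤ) ≤ K := by exact_mod_cast hK
    have hgz : 10 * (Int.gcd z.1 z.2 : ℤ) < sz z := by
      have a1 : sz x ≤ sz x ^ (S.d ^ j) := by
        calc sz x = sz x ^ 1 := (pow_one _).symm
          _ ≤ _ := pow_le_pow_right₀ hs1 hD1
      have a2 : (10 * K ^ 2 : ℤ) < K * sz z := by
        push_cast at hn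
        have : (0 : ℤ) ≤ n0 := by positivity
        linarith
      have a3 : (10 * K : ℤ) < sz z := by
        by_contra hc
        push Not at hc
        have : (K : ℤ) * sz z ≤ K * (10 * K) := mul_le_mul_of_nonneg_left hc (by positivity)
        nlinarith
      have a4 : (Int.gcd z.1 z.2 : ℤ) ≤ K := by exact_mod_cast h2
      linarith
    obtain ⟨hE, hpr⟩ := S.Ene z h1 hgz
    have hszz := sz_nonneg z
    have hszx := sz_nonneg x
    have hC1 : (1 : ℤ) ≤ S.C := by exact_mod_cast S.hC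
    have e1 : sz x ^ (S.d ^ (j + 1)) = (sz x ^ (S.d ^ j)) ^ S.d := by
      rw [← pow_mul, pow_succ]
    have nonneg1 : (0 : ℤ) ≤ (S.N : ℤ) * K ^ S.k := by positivity
    have nonneg2 : (0 : ℤ) ≤ (S.C : ℤ) * K ^ S.d := by positivity
    have nonneg3 : (0 : ℤ) ≤ (S.C : ℤ) ^ 2 * K ^ S.d := by positivity
    unfold Good
    rw [hz']
    refine ⟨hpr, ?_, ?_, ?_, ?_⟩
    · calc Int.gcd (S.T z).1 (S.T z).2 ≤ S.N * Int.gcd z.1 z.2 ^ S.k :=
            Nat.le_of_dvd (by have := S.hN; have := gcd_pos h1; positivity) (S.cont z)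
        _ ≤ S.N * K ^ S.k := by gcongr
        _ ≤ _ := by omega
    · calc sz x ^ (S.d ^ (j + 1)) = (sz x ^ (S.d ^ j)) ^ S.d := e1
        _ ≤ (K * sz z) ^ S.d := by gcongr
        _ = K ^ S.d * sz z ^ S.d := mul_pow _ _ _
        _ ≤ K ^ S.d * (S.C * sz (S.T z)) := by gcongr; exact S.lo z
        _ = (S.C * K ^ S.d) * sz (S.T z) := by ring
        _ ≤ _ := by
          push_cast
          exact mul_le_mul_of_nonneg_right (by linarith) (sz_nonneg _)
    · calc sz (S.T z) ≤ S.C * sz z ^ S.d := S.up z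
        _ ≤ S.C * (K * sz x ^ (S.d ^ j)) ^ S.d := by gcongr
        _ = (S.C * K ^ S.d) * sz x ^ (S.d ^ (j + 1)) := by rw [e1]; ring
        _ ≤ _ := by
          push_cast
          exact mul_le_mul_of_nonneg_right (by linarith) (by positivity)
    · have hR : R (pr (S.T z)).natAbs ≤ S.C * R (pr z).natAbs * (S.E z).natAbs := by
        apply R_le_of S.hC.ne' (Int.natAbs_ne_zero.mpr hE) _ (Int.natAbs_ne_zero.mpr h1)
        intro p hp hpd
        have := S.rad z p hp (Int.natCast_dvd.mpr hpd)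
        have h6 := Int.natCast_dvd.mp this
        rwa [Int.natAbs_mul, Int.natAbs_mul, Int.natAbs_natCast] at h6
      have hR' : (R (pr (S.T z)).natAbs : ℤ) ≤ S.C * R (pr z).natAbs * |S.E z| := by
        rw [← Int.natCast_natAbs]; exact_mod_cast hR
      have e2 : S.d ^ (j + 1) - 1 = (S.d ^ j - 1) + S.d ^ j * (S.d - 1) := by
        obtain ⟨t, ht⟩ : ∃ t, S.d = t + 1 := ⟨S.d - 1, by have := S.hd; omega⟩
        obtain ⟨s, hs⟩ : ∃ s, S.d ^ j = s + 1 := ⟨S.d ^ j - 1, by omega⟩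
        rw [pow_succ, hs, ht]
        simp only [Nat.add_sub_cancel]
        have : (s + 1) * (t + 1) = s + (s + 1) * t + 1 := by ring
        omega
      have hd1 : 1 ≤ S.d := by have := S.hd; omega
      calc (R (pr (S.T z)).natAbs : ℤ) ≤ S.C * R (pr z).natAbs * |S.E z| := hR'
        _ ≤ S.C * (K * R (pr x).natAbs * sz x ^ (S.d ^ j - 1)) * (S.C * sz z ^ (S.d - 1)) := by
            gcongr
            exact S.Ele z
        _ ≤ S.C * (K * R (pr x).natAbs * sz x ^ (S.d ^ j - 1)) *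
            (S.C * (K * sz x ^ (S.d ^ j)) ^ (S.d - 1)) := by gcongr
        _ = S.C ^ 2 * (K * K ^ (S.d - 1)) * R (pr x).natAbs *
            (sz x ^ (S.d ^ j - 1) * sz x ^ (S.d ^ j * (S.d - 1))) := by
            rw [pow_mul]; ring
        _ = S.C ^ 2 * K ^ S.d * R (pr x).natAbs * sz x ^ (S.d ^ (j + 1) - 1) := by
            rw [← pow_add, ← e2, ← pow_succ', Nat.sub_add_cancel hd1]
        _ ≤ _ := by
          push_cast
          refine mul_le_mul_of_nonneg_right (mul_le_mul_of_nonneg_right ?_ (by positivity))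
            (by positivity)
          linarith

end Pool.Agent.Q239.ABC
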