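import Mathlib
import Pool.Agent.Q239.ABC.Iter

/-! The abc inequality and its restriction to a class of triples. -/

namespace Pool.Agent.Q239.ABC

/-- the abc inequality for the triples in the class `P` -/
def ABCFor (P : ℕ → ℕ → ℕ → Prop) : Prop :=
  ∀ ε : ℝ, 0 < ε → ∃ κ : ℝ, ∀ a b c : ℕ, 0 < a → 0 < b → Nat.Coprime a b → a + b = c →
    P a b c → (c : ℝ) ≤ κ * (R (a * b * c) : ℝ) ^ (1 + ε)

theorem transfer {P : ℕ → ℕ → ℕ → Prop} {D K n0 : ℕ} (hD : 1 ≤ D) (hK : 1 ≤ K)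
    (h : ∀ a b c : ℕ, 0 < a → 0 < b → Nat.Coprime a b → a + b = c → n0 ≤ c →
      ∃ a' b' c' : ℕ, 0 < a' ∧ 0 < b' ∧ Nat.Coprime a' b' ∧ a' + b' = c' ∧ P a' b' c' ∧
        c ^ D ≤ K * c' ∧ R (a' * b' * c') ≤ K * R (a * b * c) * c ^ (D - 1))
    (hP : ABCFor P) : ABCFor (fun _ _ _ => True) := by
  intro ε hε
  have hD0 : (1 : ℝ) ≤ D := by exact_mod_cast hD
  have hK0 : (1 : ℝ) ≤ K := by exact_mod_cast hK
  set ε' : ℝ := ε / (1 + (1 + ε) * D) with hε'
  have hden : 0 < 1 + (1 + ε) * D := by positivity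
  have hε'0 : 0 < ε' := by positivity
  obtain ⟨κ, hκ⟩ := hP ε' hε'0
  set θ : ℝ := 1 - (D - 1) * ε' with hθ
  have hεD : ε' * (1 + (1 + ε) * D) = ε := by rw [hε']; field_simp
  have hθ0 : 0 < θ := by
    have : (D - 1) * ε' < 1 := by
      nlinarith [mul_pos hε'0 hε]
    linarith
  have hexp : (1 + ε') / θ ≤ 1 + ε := by
    rw [div_le_iff₀ hθ0, hθ]
    nlinarith [mul_pos hε'0 hε]
  set κ1 : ℝ := max κ 1 with hκ1
  have hκ1' : 1 ≤ κ1 := le_max_right _ _
  set A : ℝ := (K * κ1 * (K : ℝ) ^ (1 + ε')) ^ (1 / θ) with hA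
  have hA0 : 0 ≤ A := by positivity
  refine ⟨max A n0, ?_⟩
  intro a b c ha hb hab hc _
  have hR1 : (1 : ℝ) ≤ (R (a * b * c) : ℝ) := by exact_mod_cast R_pos _
  have hRp : (1 : ℝ) ≤ (R (a * b * c) : ℝ) ^ (1 + ε) := Real.one_le_rpow hR1 (by linarith)
  by_cases hn : n0 ≤ c
  · obtain ⟨a', b', c', ha', hb', hab', hc', hPP, h1, h2⟩ := h a b c ha hb hab hc hn
    have h3 := hκ a' b' c' ha' hb' hab' hc' hPP
    have hcpos : (0 : ℝ) < c := by
      have : 0 < c := by omega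
      exact_mod_cast this
    have hR'0 : (0 : ℝ) ≤ (R (a' * b' * c') : ℝ) := by positivity
    have h4 : (c : ℝ) ^ (D : ℝ) ≤ K * c' := by
      rw [Real.rpow_natCast]; exact_mod_cast h1
    have h5 : (R (a' * b' * c') : ℝ) ≤ K * R (a * b * c) * (c : ℝ) ^ ((D : ℝ) - 1) := by
      have : (D : ℝ) - 1 = ((D - 1 : ℕ) : ℝ) := by push_cast [hD]; ring
      rw [this, Real.rpow_natCast]; exact_mod_cast h2
    have h6 : (c' : ℝ) ≤ κ1 * (K * R (a * b * c) * (c : ℝ) ^ ((D : ℝ) - 1)) ^ (1 + ε') := by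
      calc (c' : ℝ) ≤ κ * (R (a' * b' * c') : ℝ) ^ (1 + ε') := h3
        _ ≤ κ1 * (R (a' * b' * c') : ℝ) ^ (1 + ε') := by
            gcongr; exact le_max_left _ _
        _ ≤ _ := by gcongr
    have h7 : (c : ℝ) ^ (D : ℝ) ≤ K * κ1 * (K : ℝ) ^ (1 + ε') * (R (a * b * c) : ℝ) ^ (1 + ε') *
        (c : ℝ) ^ (((D : ℝ) - 1) * (1 + ε')) := by
      calc (c : ℝ) ^ (D : ℝ) ≤ K * c' := h4
        _ ≤ K * (κ1 * (K * R (a * b * c) * (c : ℝ) ^ ((D : ℝ) - 1)) ^ (1 + ε')) := by gcongr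
        _ = _ := by
          rw [Real.mul_rpow (by positivity) (by positivity),
            Real.mul_rpow (by positivity) (by positivity), ← Real.rpow_mul hcpos.le]
          ring
    have h8 : (c : ℝ) ^ θ ≤ K * κ1 * (K : ℝ) ^ (1 + ε') * (R (a * b * c) : ℝ) ^ (1 + ε') := by
      have e : (c : ℝ) ^ (D : ℝ) = (c : ℝ) ^ θ * (c : ℝ) ^ (((D : ℝ) - 1) * (1 + ε')) := by
        rw [← Real.rpow_add hcpos, hθ]; congr 1; ring
      rw [e] at h7
      exact le_of_mul_le_mul_right h7 (by positivity)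
    have h9 : (c : ℝ) ≤ A * (R (a * b * c) : ℝ) ^ ((1 + ε') / θ) := by
      have h10 : ((c : ℝ) ^ θ) ^ (1 / θ) ≤ (K * κ1 * (K : ℝ) ^ (1 + ε') *
          (R (a * b * c) : ℝ) ^ (1 + ε')) ^ (1 / θ) := by gcongr
      rw [← Real.rpow_mul hcpos.le, mul_one_div_cancel hθ0.ne', Real.rpow_one,
        Real.mul_rpow (by positivity) (by positivity), ← Real.rpow_mul (by positivity)] at h10
      rw [show (1 + ε') / θ = (1 + ε') * (1 / θ) by ring]
      exact h10
    calc (c : ℝ) ≤ A * (R (a * b * c) : ℝ) ^ ((1 + ε') / θ) := h9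
      _ ≤ max A n0 * (R (a * b * c) : ℝ) ^ (1 + ε) := by
          gcongr
          · exact le_max_left _ _
  · have : (c : ℝ) ≤ n0 := by exact_mod_cast (not_le.mp hn).le
    calc (c : ℝ) ≤ n0 := this
      _ ≤ max A n0 := le_max_right _ _
      _ ≤ max A n0 * (R (a * b * c) : ℝ) ^ (1 + ε) :=
          le_mul_of_one_le_right (le_trans hA0 (le_max_left _ _)) hRp

theorem of_all {P : ℕ → ℕ → ℕ → Prop} (h : ABCFor (fun _ _ _ => True)) : ABCFor P := by
  intro ε hε
  obtain ⟨κ, hκ⟩ := h ε hε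
  exact ⟨κ, fun a b c ha hb hab hc _ => hκ a b c ha hb hab hc trivial⟩

/-- dividing a multiple of a power by a small number -/
theorem div_shape (p : ℕ) (hp : 1 ≤ p) (g : ℕ) (hg : 0 < g) : ∀ A u y : ℕ, A * g = u * y ^ p →
    ∃ u' y' : ℕ, A = u' * y' ^ p ∧ u' ≤ u * g ^ p := by
  induction g using Nat.strong_induction_on with
  | _ g ih =>
    intro A u y h
    by_cases h1 : g = 1
    · subst h1
      exact ⟨u, y, by simpa using h, by simp⟩
    · have hl := Nat.minFac_prime h1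
      set l := g.minFac with hldef
      obtain ⟨t, ht⟩ := Nat.minFac_dvd g
      rw [← hldef] at ht
      have hl1 := hl.one_lt
      have htpos : 0 < t := Nat.pos_of_ne_zero (by rintro rfl; simp at ht; omega)
      have htg : t < g := by rw [ht]; exact lt_mul_left htpos hl1
      have hd : l ∣ u * y ^ p := by rw [← h, ht]; exact Dvd.dvd.mul_left (dvd_mul_right _ _) _
      rcases hl.dvd_mul.mp hd with h2 | h2
      · obtain ⟨u1, hu1⟩ := h2
        have h3 : A * t = u1 * y ^ p := by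
          apply Nat.eq_of_mul_eq_mul_left hl.pos
          calc l * (A * t) = A * (l * t) := by ring
            _ = A * g := by rw [← ht]
            _ = u * y ^ p := h
            _ = _ := by rw [hu1]; ring
        obtain ⟨u', y', e1, e2⟩ := ih t htg htpos A u1 y h3
        refine ⟨u', y', e1, e2.trans ?_⟩
        have : u1 ≤ u := by rw [hu1]; exact Nat.le_mul_of_pos_left _ hl.pos
        gcongr
      · have h2' := hl.dvd_of_dvd_pow h2
        obtain ⟨y1, hy1⟩ := h2'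
        obtain ⟨s, hs⟩ : ∃ s, p = s + 1 := ⟨p - 1, by omega⟩
        have h3 : A * t = (u * l ^ s) * y1 ^ p := by
          apply Nat.eq_of_mul_eq_mul_left hl.pos
          calc l * (A * t) = A * (l * t) := by ring
            _ = A * g := by rw [← ht]
            _ = u * y ^ p := h
            _ = _ := by rw [hy1, hs]; ring
        obtain ⟨u', y', e1, e2⟩ := ih t htg htpos A (u * l ^ s) y1 h3
        refine ⟨u', y', e1, e2.trans ?_⟩
        calc u * l ^ s * t ^ p ≤ u * l ^ p * t ^ p := by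
              gcongr
              · exact hl.pos
              · omega
          _ = u * (l * t) ^ p := by rw [mul_pow]; ring
          _ = _ := by rw [← ht]

end Pool.Agent.Q239.ABC
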