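import Mathlib
import Pool.Agent.Q239.ABC.Transfer
import Pool.Agent.Q239.ABC.Maps

/-! From a pair of integers to an abc triple. -/

namespace Pool.Agent.Q239.ABC

lemma R_mono {m n : ℕ} (h : m ∣ n) (hn : n ≠ 0) : R m ≤ R n := by
  unfold R
  apply Finset.prod_le_prod_of_subset_of_one_le' (Nat.primeFactors_mono h hn)
  intro p hp _
  exact (Nat.prime_of_mem_primeFactors hp).one_lt.le

/-- `z` has the shape `(u y₀ ^ p, v y₁ ^ q, w y₂ ^ r)` -/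
def Shape (p q r : ℕ) (U : ℕ) (z : ℤ × ℤ) : Prop :=
  ∃ u v w y0 y1 y2 : ℤ, z.1 + z.2 = u * y0 ^ p ∧ z.1 = v * y1 ^ q ∧ z.2 = w * y2 ^ r ∧
    u.natAbs ≤ U ∧ v.natAbs ≤ U ∧ w.natAbs ≤ U

lemma abs_shape {g : ℕ} {s z u y : ℤ} {p U G : ℕ} (hp : 1 ≤ p) (hp6 : p ≤ 6) (hg : 0 < g)
    (hgG : g ≤ G) (h1 : z = g * s) (h2 : z = u * y ^ p) (hu : u.natAbs ≤ U) :
    ∃ u' y' : ℕ, s.natAbs = u' * y' ^ p ∧ u' ≤ U * G ^ 6 := by
  have h : s.natAbs * g = u.natAbs * y.natAbs ^ p := by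
    have := congrArg Int.natAbs (h1.symm.trans h2)
    rw [Int.natAbs_mul, Int.natAbs_mul, Int.natAbs_natCast, Int.natAbs_pow] at this
    rw [mul_comm]; exact this
  obtain ⟨u', y', e1, e2⟩ := div_shape p hp g hg _ _ _ h
  refine ⟨u', y', e1, e2.trans ?_⟩
  calc u.natAbs * g ^ p ≤ U * G ^ p := by gcongr
    _ ≤ U * G ^ 6 := by
        gcongr
        omega

theorem extract {p q r U G : ℕ} (hp : 1 ≤ p ∧ p ≤ 6) (hq : 1 ≤ q ∧ q ≤ 6) (hr : 1 ≤ r ∧ r ≤ 6)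
    {z : ℤ × ℤ} (hz : pr z ≠ 0) (hG : Int.gcd z.1 z.2 ≤ G) (hS : Shape p q r U z) :
    ∃ a b c : ℕ, 0 < a ∧ 0 < b ∧ Nat.Coprime a b ∧ a + b = c ∧
      (∃ u v w x y t : ℕ, [a, b, c].Perm [u * x ^ p, v * y ^ q, w * t ^ r] ∧
        u ≤ U * G ^ 6 ∧ v ≤ U * G ^ 6 ∧ w ≤ U * G ^ 6) ∧
      sz z ≤ G * c ∧ R (a * b * c) ≤ R (pr z).natAbs := by
  obtain ⟨u, v, w, y0, y1, y2, h0, h1, h2, hu, hv, hw⟩ := hS
  have hg : 0 < Int.gcd z.1 z.2 := gcd_pos hz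
  set g := Int.gcd z.1 z.2 with hgdef
  obtain ⟨s, hs⟩ : (g : ℤ) ∣ z.1 := Int.gcd_dvd_left _ _
  obtain ⟨t, ht⟩ : (g : ℤ) ∣ z.2 := Int.gcd_dvd_right _ _
  have hgz : (g : ℤ) ≠ 0 := by exact_mod_cast hg.ne'
  have hst : Int.gcd s t = 1 := by
    have : Int.gcd ((g : ℤ) * s) ((g : ℤ) * t) = g := by rw [← hs, ← ht]
    rw [Int.gcd_mul_left, Int.natAbs_natCast] at this
    exact Nat.eq_of_mul_eq_mul_left hg (by rw [this, mul_one])
  have hpr : pr z = g ^ 3 * (s * t * (s + t)) := by unfold pr; rw [hs, ht]; ring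
  have hs0 : s ≠ 0 := by rintro rfl; apply hz; rw [hpr]; ring
  have ht0 : t ≠ 0 := by rintro rfl; apply hz; rw [hpr]; ring
  have hst0 : s + t ≠ 0 := by intro h; apply hz; rw [hpr, h]; ring
  obtain ⟨u', x0, e0, b0⟩ := abs_shape (s := s + t) hp.1 hp.2 hg hG (by rw [hs, ht]; ring) h0 hu
  obtain ⟨v', x1, e1, b1⟩ := abs_shape hq.1 hq.2 hg hG hs h1 hv
  obtain ⟨w', x2, e2, b2⟩ := abs_shape hr.1 hr.2 hg hG ht h2 hw
  have c12 : Nat.Coprime s.natAbs t.natAbs := hst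
  have c02 : Nat.Coprime (s + t).natAbs t.natAbs := by
    show Int.gcd (s + t) t = 1
    rw [Int.gcd_add_self_left]
    exact hst
  have c01 : Nat.Coprime (s + t).natAbs s.natAbs := by
    show Int.gcd (s + t) s = 1
    rw [add_comm, Int.gcd_add_self_left, Int.gcd_comm]
    exact hst
  have hRle : R (s.natAbs * t.natAbs * (s + t).natAbs) ≤ R (pr z).natAbs := by
    apply R_mono _ (Int.natAbs_ne_zero.mpr hz)
    rw [hpr, Int.natAbs_mul, Int.natAbs_mul, Int.natAbs_mul]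
    exact dvd_mul_left _ _
  have hsz : ∀ c : ℕ, s.natAbs ≤ c → t.natAbs ≤ c → sz z ≤ G * c := by
    intro c hc1 hc2
    have k1 : |s| ≤ c := by rw [← Int.natCast_natAbs]; exact_mod_cast hc1
    have k2 : |t| ≤ c := by rw [← Int.natCast_natAbs]; exact_mod_cast hc2
    have k3 : (g : ℤ) ≤ G := by exact_mod_cast hG
    apply max_le
    · rw [hs, abs_mul, Nat.abs_cast]
      exact mul_le_mul k3 k1 (abs_nonneg _) (by positivity)
    · rw [ht, abs_mul, Nat.abs_cast]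
      exact mul_le_mul k3 k2 (abs_nonneg _) (by positivity)
  have hspos := Int.natAbs_pos.mpr hs0
  have htpos := Int.natAbs_pos.mpr ht0
  have hstpos := Int.natAbs_pos.mpr hst0
  have cases3 : s.natAbs + t.natAbs = (s + t).natAbs ∨ (s + t).natAbs + t.natAbs = s.natAbs ∨
      (s + t).natAbs + s.natAbs = t.natAbs := by omega
  rcases cases3 with h | h | h
  · refine ⟨s.natAbs, t.natAbs, (s + t).natAbs, hspos, htpos, c12, h,
      ⟨u', v', w', x0, x1, x2, ?_, b0, b1, b2⟩, hsz _ (by omega) (by omega), hRle⟩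
    rw [← e0, ← e1, ← e2]
    exact List.perm_append_comm (l₁ := [s.natAbs, t.natAbs]) (l₂ := [(s + t).natAbs])
  · refine ⟨(s + t).natAbs, t.natAbs, s.natAbs, hstpos, htpos, c02, h,
      ⟨u', v', w', x0, x1, x2, ?_, b0, b1, b2⟩, hsz _ (by omega) (by omega), ?_⟩
    · rw [← e0, ← e1, ← e2]
      exact List.Perm.cons _ (List.Perm.swap _ _ _)
    · rw [show (s + t).natAbs * t.natAbs * s.natAbs = s.natAbs * t.natAbs * (s + t).natAbs by ring]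
      exact hRle
  · refine ⟨(s + t).natAbs, s.natAbs, t.natAbs, hstpos, hspos, c01, h,
      ⟨u', v', w', x0, x1, x2, ?_, b0, b1, b2⟩, hsz _ (by omega) (by omega), ?_⟩
    · rw [← e0, ← e1, ← e2]
    · rw [show (s + t).natAbs * s.natAbs * t.natAbs = s.natAbs * t.natAbs * (s + t).natAbs by ring]
      exact hRle

/-! Shapes of the iterates -/

lemma shape33 (j : ℕ) (x : ℤ × ℤ) : ∃ y0 y1 y2 : ℤ,
    (T33^[j] x).1 + (T33^[j] x).2 = (x.1 + x.2) * y0 ^ 3 ∧ (T33^[j] x).1 = x.1 * y1 ^ 3 ∧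
      (T33^[j] x).2 = x.2 * y2 ^ 3 := by
  induction j with
  | zero => exact ⟨1, 1, 1, by simp, by simp, by simp⟩
  | succ j ih =>
    obtain ⟨y0, y1, y2, h0, h1, h2⟩ := ih
    rw [Function.iterate_succ_apply']
    set z := T33^[j] x
    refine ⟨y0 * (z.1 - z.2), y1 * (z.1 + 2 * z.2), -(y2 * (2 * z.1 + z.2)), ?_, ?_, ?_⟩
    · calc (T33 z).1 + (T33 z).2 = (z.1 + z.2) * (z.1 - z.2) ^ 3 := by unfold T33; ring
        _ = _ := by rw [h0]; ring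
    · calc (T33 z).1 = z.1 * (z.1 + 2 * z.2) ^ 3 := rfl
        _ = _ := by rw [h1]; ring
    · calc (T33 z).2 = -(z.2 * (2 * z.1 + z.2) ^ 3) := rfl
        _ = _ := by rw [h2]; ring

lemma shape24 (j : ℕ) (x : ℤ × ℤ) : ∃ y0 y1 y2 : ℤ,
    (T24^[j + 2] x).1 + (T24^[j + 2] x).2 = y0 ^ 2 ∧
      (T24^[j + 2] x).1 = (-4) ^ (j + 2) * (x.1 * x.2 * (x.1 + x.2) ^ 2) * y1 ^ 4 ∧
      (T24^[j + 2] x).2 = y2 ^ 4 := by
  induction j with
  | zero =>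
    refine ⟨-(4 * x.1 * x.2) - (x.1 + x.2) ^ 2, 1, x.1 - x.2, ?_, ?_, ?_⟩ <;>
      simp only [Function.iterate_succ, Function.iterate_zero, Function.comp, id, T24, zero_add] <;>
      ring
  | succ j ih =>
    obtain ⟨y0, y1, y2, h0, h1, h2⟩ := ih
    have e : T24^[j + 1 + 2] x = T24 (T24^[j + 2] x) := by
      rw [← Function.iterate_succ_apply' T24 (j + 2) x]
    rw [e]
    set z := T24^[j + 2] x
    refine ⟨z.1 - z.2, y1 * y2, y0, ?_, ?_, ?_⟩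
    · unfold T24; ring
    · calc (T24 z).1 = -(4 * z.1 * z.2) := rfl
        _ = _ := by rw [h1, h2]; ring
    · calc (T24 z).2 = (z.1 + z.2) ^ 2 := rfl
        _ = _ := by rw [h0]; ring

lemma shape26 (j : ℕ) (x : ℤ × ℤ) : ∃ y0 y1 y2 : ℤ,
    (T26^[j + 1] x).1 + (T26^[j + 1] x).2 = (-1) ^ (j + 1) * (x.1 + x.2) * y0 ^ 2 ∧
      (T26^[j + 1] x).1 = y1 ^ 3 ∧
      (T26^[j + 1] x).2 = 27 ^ (j + 1) * (x.2 * x.1 ^ 2) * y2 ^ 6 := by
  induction j with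
  | zero =>
    refine ⟨x.1 - 8 * x.2, -(x.1 + 4 * x.2), 1, ?_, ?_, ?_⟩ <;>
      simp only [Function.iterate_succ, Function.iterate_zero, Function.comp, id, T26, zero_add] <;>
      ring
  | succ j ih =>
    obtain ⟨y0, y1, y2, h0, h1, h2⟩ := ih
    have e : T26^[j + 1 + 1] x = T26 (T26^[j + 1] x) := by
      rw [← Function.iterate_succ_apply' T26 (j + 1) x]
    rw [e]
    set z := T26^[j + 1] x
    refine ⟨y0 * (z.1 - 8 * z.2), -(z.1 + 4 * z.2), y2 * y1, ?_, ?_, ?_⟩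
    · calc (T26 z).1 + (T26 z).2 = -((z.1 + z.2) * (z.1 - 8 * z.2) ^ 2) := by unfold T26; ring
        _ = _ := by rw [h0]; ring
    · unfold T26; ring
    · calc (T26 z).2 = 27 * z.2 * z.1 ^ 2 := rfl
        _ = _ := by rw [h1, h2]; ring

end Pool.Agent.Q239.ABC
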