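import Mathlib
import Pool.Agent.Q239.ABC.Extract

/-! The abc conjecture and its restriction to triples of almost-powers. -/

namespace Pool.Agent.Q239.ABC

/-- In some order, the terms are `u x ^ p`, `v y ^ q`, `w z ^ r` with `u, v, w ≤ c ^ δ`. -/
def AlmostPowers (p q r : ℕ) (δ : ℝ) (a b c : ℕ) : Prop :=
  ∃ u v w x y z : ℕ, [a, b, c].Perm [u * x ^ p, v * y ^ q, w * z ^ r] ∧
    (u : ℝ) ≤ (c : ℝ) ^ δ ∧ (v : ℝ) ≤ (c : ℝ) ^ δ ∧ (w : ℝ) ≤ (c : ℝ) ^ δ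

theorem of_step (S : Step) {p q r : ℕ} (hp : 1 ≤ p ∧ p ≤ 6) (hq : 1 ≤ q ∧ q ≤ 6)
    (hr : 1 ≤ r ∧ r ≤ 6)
    (hshape : ∀ j, 2 ≤ j → ∃ K1 : ℕ, ∀ a b c : ℕ, 0 < a → 0 < b → a + b = c →
      Shape p q r (K1 * c ^ 4) (S.T^[j] ((a : ℤ), (b : ℤ)))) {δ : ℝ} (hδ : 0 < δ)
    (h : ABCFor (AlmostPowers p q r δ)) : ABCFor (fun _ _ _ => True) := by
  obtain ⟨j0, hj0⟩ := exists_nat_gt (8 / δ)
  set j := j0 + 2 with hj
  obtain ⟨K1, hK1⟩ := hshape j (by omega)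
  obtain ⟨K, n0, hK, hiter⟩ := iter S j
  set D := S.d ^ j with hD
  have hDge : j0 ≤ D := by
    calc j0 ≤ j := by omega
      _ ≤ 2 ^ j := Nat.lt_two_pow_self.le
      _ ≤ S.d ^ j := Nat.pow_le_pow_left S.hd _
  have hD1 : 1 ≤ D := Nat.one_le_pow _ _ (by have := S.hd; omega)
  have hDδ : 4 / (D : ℝ) ≤ δ / 2 := by
    have h1 : 8 / δ < D := lt_of_lt_of_le hj0 (by exact_mod_cast hDge)
    have hD0 : (0 : ℝ) < D := by exact_mod_cast hD1
    rw [div_lt_iff₀ hδ] at h1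
    rw [div_le_iff₀ hD0]
    linarith
  set K3 : ℕ := 2 ^ D * K ^ 2 with hK3
  have hK3pos : 0 < K3 := by positivity
  set K4 : ℝ := (K1 * K ^ 6 : ℝ) * (K3 : ℝ) ^ (δ / 2) with hK4
  have hK40 : 0 ≤ K4 := by positivity
  obtain ⟨n2, hn2⟩ := exists_nat_ge (K4 ^ (2 / δ))
  refine transfer (D := D) (K := K3) (n0 := 2 * n0 + K3 * n2 + 1) hD1 (by omega) ?_ h
  intro a b c ha hb hab hc hcn
  set x : ℤ × ℤ := ((a : ℤ), (b : ℤ)) with hx
  have hcpos : 0 < c := by omega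
  have hprx : pr x = ((a * b * c : ℕ) : ℤ) := by
    unfold pr; rw [hx, ← hc]; push_cast; ring
  have hpr0 : pr x ≠ 0 := by
    rw [hprx]; exact_mod_cast (by positivity : a * b * c ≠ 0)
  have hszc : sz x ≤ c := by
    apply max_le
    · show |(a : ℤ)| ≤ c
      rw [Nat.abs_cast]; exact_mod_cast (by omega : a ≤ c)
    · show |(b : ℤ)| ≤ c
      rw [Nat.abs_cast]; exact_mod_cast (by omega : b ≤ c)
  have hcsz : (c : ℤ) ≤ 2 * sz x := by
    have h1 : (a : ℤ) ≤ sz x := le_trans (le_abs_self _) (le_max_left _ _)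
    have h2 : (b : ℤ) ≤ sz x := le_trans (le_abs_self _) (le_max_right _ _)
    rw [← hc]; push_cast; linarith
  have hg1 : Int.gcd x.1 x.2 = 1 := by
    show Int.gcd (a : ℤ) (b : ℤ) = 1
    rw [Int.gcd_natCast_natCast]; exact hab
  have hn : (n0 : ℤ) ≤ sz x := by
    have : (2 * (n0 : ℤ)) ≤ c := by exact_mod_cast (by omega : 2 * n0 ≤ c)
    linarith
  obtain ⟨g1, g2, g3, g4, g5⟩ := hiter x hpr0 hg1 hn
  set z := S.T^[j] x with hz
  have hSh : Shape p q r (K1 * c ^ 4) z := hK1 a b c ha hb hc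
  obtain ⟨a', b', c', ha', hb', hab', hc', ⟨u, v, w, y0, y1, y2, hperm, hu, hv, hw⟩, hszz, hRz⟩ :=
    extract hp hq hr g1 g2 hSh
  have hcD : c ^ D ≤ K3 * c' := by
    have : (c : ℤ) ^ D ≤ K3 * c' := by
      calc (c : ℤ) ^ D ≤ (2 * sz x) ^ D := by gcongr
        _ = 2 ^ D * sz x ^ D := mul_pow _ _ _
        _ ≤ 2 ^ D * (K * sz z) := by gcongr
        _ ≤ 2 ^ D * (K * (K * c')) := by gcongr
        _ = _ := by rw [hK3]; push_cast; ring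
    exact_mod_cast this
  have hc'pos : 0 < c' := by omega
  -- the size of the coefficients
  have hc'R : (0 : ℝ) < c' := by exact_mod_cast hc'pos
  have hcR : (0 : ℝ) < c := by exact_mod_cast hcpos
  have hc'1 : (1 : ℝ) ≤ c' := by exact_mod_cast hc'pos
  have hK3R : (1 : ℝ) ≤ K3 := by exact_mod_cast hK3pos
  have hbig : K4 ≤ (c' : ℝ) ^ (δ / 2) := by
    have h1 : c ≤ K3 * c' := le_trans (Nat.le_self_pow (by omega) c) hcD
    have h2 : K3 * n2 ≤ K3 * c' := by omega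
    have h3 : n2 ≤ c' := Nat.le_of_mul_le_mul_left h2 hK3pos
    have h4 : K4 ^ (2 / δ) ≤ c' := hn2.trans (by exact_mod_cast h3)
    have h5 : (K4 ^ (2 / δ)) ^ (δ / 2) ≤ (c' : ℝ) ^ (δ / 2) := by gcongr
    rw [← Real.rpow_mul hK40] at h5
    have e : 2 / δ * (δ / 2) = 1 := by field_simp
    rwa [e, Real.rpow_one] at h5
  have hcoef : ((K1 * c ^ 4 * K ^ 6 : ℕ) : ℝ) ≤ (c' : ℝ) ^ δ := by
    have h1 : (c : ℝ) ^ (4 : ℝ) ≤ ((K3 : ℝ) * c') ^ (δ / 2) := by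
      have h2 : (c : ℝ) ≤ ((K3 : ℝ) * c') ^ (1 / (D : ℝ)) := by
        have h3 : ((c : ℝ) ^ D) ^ (1 / (D : ℝ)) ≤ ((K3 : ℝ) * c') ^ (1 / (D : ℝ)) := by
          have : (c : ℝ) ^ D ≤ (K3 : ℝ) * c' := by exact_mod_cast hcD
          gcongr
        rw [← Real.rpow_natCast, ← Real.rpow_mul hcR.le, mul_one_div_cancel
          (by exact_mod_cast (by omega : D ≠ 0)), Real.rpow_one] at h3
        exact h3
      calc (c : ℝ) ^ (4 : ℝ) ≤ (((K3 : ℝ) * c') ^ (1 / (D : ℝ))) ^ (4 : ℝ) := by gcongr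
        _ = ((K3 : ℝ) * c') ^ (4 / (D : ℝ)) := by
            rw [← Real.rpow_mul (by positivity)]; congr 1; ring
        _ ≤ ((K3 : ℝ) * c') ^ (δ / 2) := by
            apply Real.rpow_le_rpow_of_exponent_le _ hDδ
            nlinarith
    calc ((K1 * c ^ 4 * K ^ 6 : ℕ) : ℝ) = (K1 * K ^ 6 : ℝ) * (c : ℝ) ^ (4 : ℝ) := by
          rw [show (c : ℝ) ^ (4 : ℝ) = (c : ℝ) ^ (4 : ℕ) by
            rw [← Real.rpow_natCast]; norm_num]
          push_cast; ring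
      _ ≤ (K1 * K ^ 6 : ℝ) * (((K3 : ℝ) * c') ^ (δ / 2)) := by gcongr
      _ = K4 * (c' : ℝ) ^ (δ / 2) := by
          rw [Real.mul_rpow (by positivity) (by positivity), hK4]; ring
      _ ≤ (c' : ℝ) ^ (δ / 2) * (c' : ℝ) ^ (δ / 2) := by gcongr
      _ = (c' : ℝ) ^ δ := by rw [← Real.rpow_add hc'R]; congr 1; ring
  have hco : ∀ t : ℕ, t ≤ K1 * c ^ 4 * K ^ 6 → (t : ℝ) ≤ (c' : ℝ) ^ δ := fun t ht =>
    le_trans (by exact_mod_cast ht) hcoef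
  refine ⟨a', b', c', ha', hb', hab', hc', ⟨u, v, w, y0, y1, y2, hperm, hco u hu, hco v hv,
    hco w hw⟩, hcD, ?_⟩
  have : (R (a' * b' * c') : ℤ) ≤ K3 * R (a * b * c) * (c : ℤ) ^ (D - 1) := by
    have hRz' : (R (a' * b' * c') : ℤ) ≤ R (pr z).natAbs := by exact_mod_cast hRz
    have hKK3 : (K : ℤ) ≤ K3 := by
      have h1 : K ≤ K3 := by
        rw [hK3]
        calc K = 1 * K := (one_mul _).symm
          _ ≤ 2 ^ D * K ^ 2 := Nat.mul_le_mul Nat.one_le_two_pow (Nat.le_self_pow (by norm_num) K)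
      exact_mod_cast h1
    have hs0 := sz_nonneg x
    calc (R (a' * b' * c') : ℤ) ≤ R (pr z).natAbs := hRz'
      _ ≤ K * R (pr x).natAbs * sz x ^ (D - 1) := g5
      _ = K * R (a * b * c) * sz x ^ (D - 1) := by rw [hprx, Int.natAbs_natCast]
      _ ≤ K3 * R (a * b * c) * (c : ℤ) ^ (D - 1) := by gcongr
  exact_mod_cast this

theorem three (δ : ℝ) (hδ : 0 < δ) (h : ABCFor (AlmostPowers 3 3 3 δ)) :
    ABCFor (fun _ _ _ => True) := by
  refine of_step step33 (by norm_num) (by norm_num) (by norm_num) ?_ hδ h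
  intro j _
  refine ⟨1, fun a b c ha hb hc => ?_⟩
  obtain ⟨y0, y1, y2, h0, h1, h2⟩ := shape33 j ((a : ℤ), (b : ℤ))
  have hc4 : c ≤ 1 * c ^ 4 := by rw [one_mul]; exact Nat.le_self_pow (by norm_num) c
  refine ⟨(a : ℤ) + b, a, b, y0, y1, y2, h0, h1, h2, ?_, ?_, ?_⟩
  · have : ((a : ℤ) + b).natAbs = c := by omega
    omega
  · simp only [Int.natAbs_natCast]; omega
  · simp only [Int.natAbs_natCast]; omega

theorem four (δ : ℝ) (hδ : 0 < δ) (h : ABCFor (AlmostPowers 2 4 4 δ)) :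
    ABCFor (fun _ _ _ => True) := by
  refine of_step step24 (by norm_num) (by norm_num) (by norm_num) ?_ hδ h
  intro j hj
  obtain ⟨i, rfl⟩ : ∃ i, j = i + 2 := ⟨j - 2, by omega⟩
  refine ⟨4 ^ (i + 2), fun a b c ha hb hc => ?_⟩
  obtain ⟨y0, y1, y2, h0, h1, h2⟩ := shape24 i ((a : ℤ), (b : ℤ))
  have hcpos : 0 < c := by omega
  have hc4 : 1 ≤ 4 ^ (i + 2) * c ^ 4 := Nat.one_le_iff_ne_zero.mpr (by positivity)
  refine ⟨1, (-4) ^ (i + 2) * ((a : ℤ) * b * ((a : ℤ) + b) ^ 2), 1, y0, y1, y2,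
    by rw [one_mul]; exact h0, h1, by rw [one_mul]; exact h2, by simpa using hc4, ?_,
    by simpa using hc4⟩
  have e : ((-4 : ℤ) ^ (i + 2) * ((a : ℤ) * b * ((a : ℤ) + b) ^ 2)).natAbs
      = 4 ^ (i + 2) * (a * b * c ^ 2) := by
    rw [Int.natAbs_mul, Int.natAbs_pow, Int.natAbs_mul, Int.natAbs_mul, Int.natAbs_pow,
      Int.natAbs_natCast, Int.natAbs_natCast, show ((a : ℤ) + b).natAbs = c by omega]
    rfl
  rw [e]
  gcongr
  calc a * b * c ^ 2 ≤ c * c * c ^ 2 := by gcongr <;> omega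
    _ = c ^ 4 := by ring

theorem six (δ : ℝ) (hδ : 0 < δ) (h : ABCFor (AlmostPowers 2 3 6 δ)) :
    ABCFor (fun _ _ _ => True) := by
  refine of_step step26 (by norm_num) (by norm_num) (by norm_num) ?_ hδ h
  intro j hj
  obtain ⟨i, rfl⟩ : ∃ i, j = i + 1 := ⟨j - 1, by omega⟩
  refine ⟨27 ^ (i + 1), fun a b c ha hb hc => ?_⟩
  obtain ⟨y0, y1, y2, h0, h1, h2⟩ := shape26 i ((a : ℤ), (b : ℤ))
  have hcpos : 0 < c := by omega
  have hc4 : c ^ 4 ≤ 27 ^ (i + 1) * c ^ 4 := Nat.le_mul_of_pos_left _ (by positivity)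
  have hc1 : c ≤ c ^ 4 := Nat.le_self_pow (by norm_num) c
  refine ⟨(-1) ^ (i + 1) * ((a : ℤ) + b), 1, 27 ^ (i + 1) * ((b : ℤ) * (a : ℤ) ^ 2), y0, y1, y2,
    h0, by rw [one_mul]; exact h1, h2, ?_, ?_, ?_⟩
  · rw [Int.natAbs_mul, Int.natAbs_pow, show ((a : ℤ) + b).natAbs = c by omega]
    simp
    omega
  · simp
    omega
  · rw [Int.natAbs_mul, Int.natAbs_pow, Int.natAbs_mul, Int.natAbs_pow, Int.natAbs_natCast,
      Int.natAbs_natCast]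
    show 27 ^ (i + 1) * (b * a ^ 2) ≤ 27 ^ (i + 1) * c ^ 4
    gcongr
    calc b * a ^ 2 ≤ c * c ^ 2 := by gcongr <;> omega
      _ = c ^ 3 := by ring
      _ ≤ c ^ 4 := Nat.pow_le_pow_right hcpos (by norm_num)

end Pool.Agent.Q239.ABC
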