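import Mathlib
import Pool.Agent.Q239.ABC.Main

/-! Perfect powers, and finiteness for the other exponents. -/

namespace Pool.Agent.Q239.ABC

lemma geom_id (a b : ℕ) (k : ℕ) : (a + b) ^ k =
    a ^ k + b * ∑ i ∈ Finset.range k, (a + b) ^ i * a ^ (k - 1 - i) := by
  have h := (Commute.all ((a : ℤ) + b) (a : ℤ)).geom_sum₂_mul k
  have : ((a : ℤ) + b) ^ k = a ^ k + b * ∑ i ∈ Finset.range k, ((a : ℤ) + b) ^ i * a ^ (k - 1 - i) := by
    have e : ((a : ℤ) + b - a) = b := by ring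
    rw [e] at h
    linarith
  exact_mod_cast this

theorem powers (k : ℕ) (hk : 1 ≤ k)
    (h : ABCFor (fun a _ c => (∃ x : ℕ, a = x ^ k) ∧ ∃ z : ℕ, c = z ^ k)) :
    ABCFor (fun _ _ _ => True) := by
  refine transfer (D := k) (K := k) (n0 := 0) hk hk ?_ h
  intro a b c ha hb hab hc _
  set S := ∑ i ∈ Finset.range k, (a + b) ^ i * a ^ (k - 1 - i) with hS
  have hcpos : 0 < c := by omega
  have hSpos : 0 < S := by
    apply Finset.sum_pos
    · intro i _; positivity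
    · exact Finset.nonempty_range_iff.mpr (by omega)
  have hSle : S ≤ k * c ^ (k - 1) := by
    rw [hS]
    calc ∑ i ∈ Finset.range k, (a + b) ^ i * a ^ (k - 1 - i)
        ≤ ∑ _i ∈ Finset.range k, c ^ (k - 1) := by
          apply Finset.sum_le_sum
          intro i hi
          have hi' := Finset.mem_range.mp hi
          calc (a + b) ^ i * a ^ (k - 1 - i) ≤ c ^ i * c ^ (k - 1 - i) := by
                gcongr <;> omega
            _ = c ^ (k - 1) := by rw [← pow_add]; congr 1; omega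
      _ = k * c ^ (k - 1) := by simp
  have hid := geom_id a b k
  rw [← hS, hc] at hid
  have hcopr : Nat.Coprime (a ^ k) (b * S) := by
    have h1 : Nat.Coprime (a ^ k) (c ^ k) := by
      apply Nat.Coprime.pow
      rw [← hc]
      simpa using hab
    have h2 : Nat.Coprime (a ^ k) (a ^ k + b * S) := by rw [← hid]; exact h1
    simpa using h2
  refine ⟨a ^ k, b * S, c ^ k, by positivity, by positivity, hcopr, hid.symm,
    ⟨⟨a, rfl⟩, ⟨c, rfl⟩⟩, Nat.le_mul_of_pos_left _ hk, ?_⟩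
  have h1 : R (a ^ k * (b * S) * c ^ k) ≤ 1 * R (a * b * c) * S := by
    apply R_le_of one_ne_zero hSpos.ne' _ (by positivity)
    intro p hp hd
    rw [one_mul]
    rcases hp.dvd_mul.mp hd with h2 | h2
    · rcases hp.dvd_mul.mp h2 with h3 | h3
      · have := hp.dvd_of_dvd_pow h3
        exact Dvd.dvd.mul_right (Dvd.dvd.mul_right (Dvd.dvd.mul_right this _) _) _
      · rcases hp.dvd_mul.mp h3 with h4 | h4
        · exact Dvd.dvd.mul_right (Dvd.dvd.mul_right (Dvd.dvd.mul_left h4 _) _) _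
        · exact Dvd.dvd.mul_left h4 _
    · have := hp.dvd_of_dvd_pow h2
      exact Dvd.dvd.mul_right (Dvd.dvd.mul_left this _) _
  calc R (a ^ k * (b * S) * c ^ k) ≤ 1 * R (a * b * c) * S := h1
    _ ≤ 1 * R (a * b * c) * (k * c ^ (k - 1)) := by gcongr
    _ = _ := by ring

lemma term_bound {u x p c : ℕ} (hp : 1 ≤ p) (hpos : 0 < u * x ^ p) (h : u * x ^ p ≤ c) :
    (x : ℝ) ≤ (c : ℝ) ^ (1 / (p : ℝ)) := by
  have h1 : x ^ p ≤ c := by
    have : 0 < u := Nat.pos_of_ne_zero (by rintro rfl; simp at hpos)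
    exact le_trans (Nat.le_mul_of_pos_left _ this) h
  have h2 : ((x : ℝ) ^ (p : ℝ)) ^ (1 / (p : ℝ)) ≤ (c : ℝ) ^ (1 / (p : ℝ)) := by
    have : (x : ℝ) ^ (p : ℝ) ≤ c := by rw [Real.rpow_natCast]; exact_mod_cast h1
    gcongr
  rw [← Real.rpow_mul (by positivity), mul_one_div_cancel (by exact_mod_cast (by omega : p ≠ 0)),
    Real.rpow_one] at h2
  exact h2

theorem finite_of_abc (h : ABCFor (fun _ _ _ => True)) (p q r : ℕ) (hp : 1 ≤ p) (hq : 1 ≤ q)
    (hr : 1 ≤ r) (δ : ℝ)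
    (hlt : 3 * δ + (1 / (p : ℝ) + 1 / (q : ℝ) + 1 / (r : ℝ)) < 1) :
    {t : ℕ × ℕ × ℕ | 0 < t.1 ∧ 0 < t.2.1 ∧ Nat.Coprime t.1 t.2.1 ∧ t.1 + t.2.1 = t.2.2 ∧
      AlmostPowers p q r δ t.1 t.2.1 t.2.2}.Finite := by
  set θ : ℝ := 3 * δ + (1 / (p : ℝ) + 1 / (q : ℝ) + 1 / (r : ℝ)) with hθ
  obtain ⟨ε, hε, hεθ⟩ : ∃ ε : ℝ, 0 < ε ∧ θ * (1 + ε) < 1 := by
    by_cases h0 : θ ≤ 0
    · exact ⟨1, one_pos, by nlinarith⟩
    · push Not at h0
      refine ⟨(1 - θ) / (2 * θ), by apply div_pos <;> linarith, ?_⟩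
      have : θ * (1 + (1 - θ) / (2 * θ)) = (1 + θ) / 2 := by field_simp; ring
      rw [this]; linarith
  obtain ⟨κ, hκ⟩ := h ε hε
  set μ : ℝ := 1 - θ * (1 + ε) with hμ
  have hμ0 : 0 < μ := by linarith
  obtain ⟨n, hn⟩ := exists_nat_ge ((max κ 1) ^ (1 / μ))
  apply Set.Finite.subset
    ((Finset.range (n + 1) ×ˢ (Finset.range (n + 1) ×ˢ Finset.range (n + 1))).finite_toSet)
  rintro ⟨a, b, c⟩ ⟨ha, hb, hab, hc, u, v, w, x, y, z, hperm, hu, hv, hw⟩
  simp only at ha hb hab hc hperm hu hv hw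
  have hcpos : 0 < c := by omega
  have hcR : (0 : ℝ) < c := by exact_mod_cast hcpos
  have hmem : ∀ t ∈ [u * x ^ p, v * y ^ q, w * z ^ r], 0 < t ∧ t ≤ c := by
    intro t ht
    have ht' : t ∈ [a, b, c] := hperm.mem_iff.mpr ht
    simp only [List.mem_cons, List.not_mem_nil, or_false] at ht'
    rcases ht' with rfl | rfl | rfl <;> omega
  obtain ⟨p1, l1⟩ := hmem (u * x ^ p) (by simp)
  obtain ⟨p2, l2⟩ := hmem (v * y ^ q) (by simp)
  obtain ⟨p3, l3⟩ := hmem (w * z ^ r) (by simp)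
  have hx := term_bound hp p1 l1
  have hy := term_bound hq p2 l2
  have hz := term_bound hr p3 l3
  have hprod : a * b * c = (u * x ^ p) * (v * y ^ q) * (w * z ^ r) := by
    have := hperm.prod_eq
    simp only [List.prod_cons, List.prod_nil, mul_one] at this
    rw [mul_assoc, this]; ring
  have hu0 : u ≠ 0 := by rintro rfl; simp at p1
  have hv0 : v ≠ 0 := by rintro rfl; simp at p2
  have hw0 : w ≠ 0 := by rintro rfl; simp at p3
  have hx0 : x ≠ 0 := by rintro rfl; rw [zero_pow (by omega)] at p1; simp at p1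
  have hy0 : y ≠ 0 := by rintro rfl; rw [zero_pow (by omega)] at p2; simp at p2
  have hz0 : z ≠ 0 := by rintro rfl; rw [zero_pow (by omega)] at p3; simp at p3
  have hR : R (a * b * c) ≤ (u * v * w) * R 1 * (x * y * z) := by
    apply R_le_of (by positivity) (by positivity) _ one_ne_zero
    intro l hl hd
    rw [hprod] at hd
    have hpw : ∀ s t m : ℕ, l ∣ s * t ^ m → l ∣ s ∨ l ∣ t := by
      intro s t m hst
      rcases hl.dvd_mul.mp hst with h1 | h1
      · exact Or.inl h1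
      · exact Or.inr (hl.dvd_of_dvd_pow h1)
    rcases hl.dvd_mul.mp hd with h1 | h1
    · rcases hl.dvd_mul.mp h1 with h2 | h2
      · rcases hpw _ _ _ h2 with h3 | h3
        · exact (h3.trans ⟨v * w * 1 * (x * y * z), by ring⟩)
        · exact (h3.trans ⟨u * v * w * 1 * (y * z), by ring⟩)
      · rcases hpw _ _ _ h2 with h3 | h3
        · exact (h3.trans ⟨u * w * 1 * (x * y * z), by ring⟩)
        · exact (h3.trans ⟨u * v * w * 1 * (x * z), by ring⟩)
    · rcases hpw _ _ _ h1 with h3 | h3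
      · exact (h3.trans ⟨u * v * 1 * (x * y * z), by ring⟩)
      · exact (h3.trans ⟨u * v * w * 1 * (x * y), by ring⟩)
  have hR1 : R 1 = 1 := by simp [R]
  rw [hR1, mul_one] at hR
  have hRθ : (R (a * b * c) : ℝ) ≤ (c : ℝ) ^ θ := by
    calc (R (a * b * c) : ℝ) ≤ ((u * v * w) * (x * y * z) : ℕ) := by exact_mod_cast hR
      _ = ((u : ℝ) * v * w) * (x * y * z) := by push_cast; ring
      _ ≤ ((c : ℝ) ^ δ * (c : ℝ) ^ δ * (c : ℝ) ^ δ) * ((c : ℝ) ^ (1 / (p : ℝ)) *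
          (c : ℝ) ^ (1 / (q : ℝ)) * (c : ℝ) ^ (1 / (r : ℝ))) := by gcongr
      _ = (c : ℝ) ^ θ := by
          rw [← Real.rpow_add hcR, ← Real.rpow_add hcR, ← Real.rpow_add hcR, ← Real.rpow_add hcR,
            ← Real.rpow_add hcR, hθ]
          congr 1; ring
  have h1 := hκ a b c ha hb hab hc trivial
  have h2 : (c : ℝ) ≤ max κ 1 * (c : ℝ) ^ (θ * (1 + ε)) := by
    calc (c : ℝ) ≤ κ * (R (a * b * c) : ℝ) ^ (1 + ε) := h1
      _ ≤ max κ 1 * (R (a * b * c) : ℝ) ^ (1 + ε) := by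
          gcongr; exact le_max_left _ _
      _ ≤ max κ 1 * ((c : ℝ) ^ θ) ^ (1 + ε) := by gcongr
      _ = _ := by rw [← Real.rpow_mul hcR.le]
  have h3 : (c : ℝ) ^ μ ≤ max κ 1 := by
    have e : (c : ℝ) = (c : ℝ) ^ μ * (c : ℝ) ^ (θ * (1 + ε)) := by
      rw [← Real.rpow_add hcR, hμ]
      conv_lhs => rw [← Real.rpow_one (c : ℝ)]
      congr 1; ring
    rw [e] at h2
    have h2' : (c : ℝ) ^ μ * (c : ℝ) ^ (θ * (1 + ε)) ≤ max κ 1 * (c : ℝ) ^ (θ * (1 + ε)) := by
      have := h2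
      rw [← e] at this
      rw [← e]
      exact this
    exact le_of_mul_le_mul_right h2' (by positivity)
  have h4 : (c : ℝ) ≤ n := by
    have h5 : ((c : ℝ) ^ μ) ^ (1 / μ) ≤ (max κ 1) ^ (1 / μ) := by gcongr
    rw [← Real.rpow_mul hcR.le, mul_one_div_cancel hμ0.ne', Real.rpow_one] at h5
    exact h5.trans hn
  have h6 : c ≤ n := by exact_mod_cast h4
  simp only [Finset.coe_product, Set.mem_prod, Finset.coe_range, Set.mem_Iio]
  omega

end Pool.Agent.Q239.ABC
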