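import Mathlib
import Pool.Agent.Q239.ABC.Extra

/-! Perfect powers: the signatures `(2,2,k)` and `(2,3,3)`. -/

namespace Pool.Agent.Q239.ABC

/-- In some order, the terms are perfect powers with exponents `p`, `q`, `r`. -/
def Powers (p q r : ℕ) (a b c : ℕ) : Prop :=
  ∃ x y z : ℕ, [a, b, c].Perm [x ^ p, y ^ q, z ^ r]

theorem one_k_k (k : ℕ) (hk : 1 ≤ k) (h : ABCFor (Powers 1 k k)) : ABCFor (fun _ _ _ => True) := by
  apply powers k hk
  intro ε hε
  obtain ⟨κ, hκ⟩ := h ε hε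
  refine ⟨κ, fun a b c ha hb hab hc ⟨⟨x, hx⟩, ⟨z, hz⟩⟩ => hκ a b c ha hb hab hc ⟨b, x, z, ?_⟩⟩
  rw [pow_one, ← hx, ← hz]
  exact List.Perm.swap _ _ _

/-- the two odd members of an abc triple -/
lemma odd_pair {a b c : ℕ} (hab : Nat.Coprime a b) (hc : a + b = c) (h3 : 3 ≤ c) (ha : 0 < a)
    (hb : 0 < b) :
    ∃ u v w : ℕ, v < u ∧ 0 < v ∧ Odd u ∧ Odd v ∧ Nat.Coprime u v ∧ (w = u - v ∨ w = u + v) ∧
      u * v * w = a * b * c ∧ c ≤ 2 * u ∧ u ≤ c := by
  have hac : Nat.Coprime c a := by rw [← hc]; simpa using hab.symm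
  have hbc : Nat.Coprime c b := by rw [← hc]; simpa using hab
  rcases Nat.even_or_odd a with hea | hoa
  · have hob : Odd b := by
      rw [← Nat.not_even_iff_odd]
      intro heb
      have := Nat.dvd_gcd hea.two_dvd heb.two_dvd
      rw [Nat.Coprime] at hab
      omega
    have hoc : Odd c := by rw [← hc]; exact hea.add_odd hob
    exact ⟨c, b, a, by omega, hb, hoc, hob, hbc, Or.inl (by omega), by ring, by omega, le_rfl⟩
  · rcases Nat.even_or_odd b with heb | hob
    · have hoc : Odd c := by rw [← hc]; exact hoa.add_even heb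
      exact ⟨c, a, b, by omega, ha, hoc, hoa, hac, Or.inl (by omega), by ring, by omega, le_rfl⟩
    · rcases lt_trichotomy a b with h | h | h
      · exact ⟨b, a, c, h, ha, hob, hoa, hab.symm, Or.inr (by omega), by ring, by omega,
          by omega⟩
      · subst h
        have : a = 1 := by simpa using hab
        omega
      · exact ⟨a, b, c, h, hb, hoa, hob, hab, Or.inr (by omega), by ring, by omega,
          by omega⟩

theorem two_two_k (k : ℕ) (hk : 1 ≤ k) (h : ABCFor (Powers 2 2 k)) :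
    ABCFor (fun _ _ _ => True) := by
  refine transfer (D := 2 * k) (K := 4 * 4 ^ k + 2 * k) (n0 := 3) (by omega)
    (by have : 0 < 4 ^ k := by positivity
        omega) ?_ h
  intro a b c ha hb hab hc h3
  obtain ⟨u, v, w, hvu, hv, hou, hov, huv, hw, hprod, hcu, huc⟩ := odd_pair hab hc h3 ha hb
  obtain ⟨X, hX⟩ : 2 ∣ u ^ k + v ^ k := (hou.pow.add_odd hov.pow).two_dvd
  have hlt : v ^ k < u ^ k := Nat.pow_lt_pow_left hvu (by omega)
  obtain ⟨Y, hY⟩ : 2 ∣ u ^ k - v ^ k := (Nat.Odd.sub_odd hou.pow hov.pow).two_dvd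
  have hYpos : 0 < Y := by omega
  have hXY : X = Y + v ^ k := by omega
  have hu' : u ^ k = X + Y := by omega
  have hid : Y ^ 2 + (u * v) ^ k = X ^ 2 := by
    rw [mul_pow, hu', hXY]; ring
  have hupos : 0 < u := by omega
  have hcop : Nat.Coprime (Y ^ 2) ((u * v) ^ k) := by
    apply Nat.Coprime.pow
    apply Nat.Coprime.mul_right
    · -- `Y` and `u`
      apply Nat.Coprime.symm
      rw [Nat.coprime_iff_gcd_eq_one] at *
      by_contra hne
      obtain ⟨p, hp, hpu, hpY⟩ := Nat.Prime.not_coprime_iff_dvd.mp hne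
      have h1 : p ∣ u ^ k - v ^ k := by rw [hY]; exact Dvd.dvd.mul_left hpY 2
      have h2 : p ∣ u ^ k := dvd_pow hpu (by omega)
      have h3' : p ∣ v ^ k := (Nat.dvd_sub_iff_right hlt.le h2).mp h1
      have h4 := hp.dvd_of_dvd_pow h3'
      have := Nat.dvd_gcd hpu h4
      rw [huv] at this
      exact hp.one_lt.ne' (Nat.dvd_one.mp this)
    · apply Nat.Coprime.symm
      rw [Nat.coprime_iff_gcd_eq_one] at *
      by_contra hne
      obtain ⟨p, hp, hpv, hpY⟩ := Nat.Prime.not_coprime_iff_dvd.mp hne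
      have h1 : p ∣ u ^ k - v ^ k := by rw [hY]; exact Dvd.dvd.mul_left hpY 2
      have h2 : p ∣ v ^ k := dvd_pow hpv (by omega)
      have h3' : p ∣ u ^ k := by
        have := dvd_add h1 h2
        rwa [Nat.sub_add_cancel hlt.le] at this
      have h4 := hp.dvd_of_dvd_pow h3'
      have := Nat.dvd_gcd h4 hpv
      rw [huv] at this
      exact hp.one_lt.ne' (Nat.dvd_one.mp this)
  have hXu : u ^ k ≤ 2 * X := by omega
  have hcpos : 0 < c := by omega
  refine ⟨Y ^ 2, (u * v) ^ k, X ^ 2, by positivity, by positivity, hcop, hid,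
    ⟨Y, X, u * v, ?_⟩, ?_, ?_⟩
  · exact List.Perm.cons _ (List.Perm.swap _ _ _)
  · calc c ^ (2 * k) ≤ (2 * u) ^ (2 * k) := by gcongr
      _ = 4 ^ k * (u ^ k) ^ 2 := by
          rw [mul_pow, pow_mul, ← pow_mul u, mul_comm k 2]; norm_num
      _ ≤ 4 ^ k * (2 * X) ^ 2 := by gcongr
      _ = (4 * 4 ^ k) * X ^ 2 := by ring
      _ ≤ (4 * 4 ^ k + 2 * k) * X ^ 2 := by gcongr; omega
  · -- the radical
    have hwpos : 0 < w := by rcases hw with h | h <;> omega
    obtain ⟨S, hS, hSle, hSpos⟩ : ∃ S : ℕ, u ^ (2 * k) - v ^ (2 * k) = w * S ∧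
        S ≤ 2 * k * c ^ (2 * k - 1) ∧ 0 < S := by
      have hlt2 : v ^ (2 * k) < u ^ (2 * k) := Nat.pow_lt_pow_left hvu (by omega)
      have hdvd : w ∣ u ^ (2 * k) - v ^ (2 * k) := by
        rcases hw with h | h
        · rw [h]; exact Nat.sub_dvd_pow_sub_pow _ _ _
        · rw [h, pow_mul, pow_mul]
          refine dvd_trans ?_ (Nat.sub_dvd_pow_sub_pow (u ^ 2) (v ^ 2) k)
          rw [Nat.sq_sub_sq]
          exact dvd_mul_right _ _
      obtain ⟨S, hS⟩ := hdvd
      have hSpos : 0 < S := Nat.pos_of_ne_zero (by rintro rfl; omega)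
      refine ⟨S, hS, ?_, hSpos⟩
      rcases hw with h | h
      · have g := geom_id v w (2 * k)
        have e : v + w = u := by omega
        rw [e] at g
        have hS2 : w * S = w * ∑ i ∈ Finset.range (2 * k), u ^ i * v ^ (2 * k - 1 - i) := by
          rw [← hS, g]; simp
        have hS3 := Nat.eq_of_mul_eq_mul_left hwpos hS2
        rw [hS3]
        calc ∑ i ∈ Finset.range (2 * k), u ^ i * v ^ (2 * k - 1 - i)
            ≤ ∑ _i ∈ Finset.range (2 * k), c ^ (2 * k - 1) := by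
              apply Finset.sum_le_sum
              intro i hi
              have hi' := Finset.mem_range.mp hi
              calc u ^ i * v ^ (2 * k - 1 - i) ≤ c ^ i * c ^ (2 * k - 1 - i) := by
                    gcongr; omega
                _ = c ^ (2 * k - 1) := by rw [← pow_add]; congr 1; omega
          _ = _ := by simp
      · have h1 : u * S ≤ u * u ^ (2 * k - 1) := by
          calc u * S ≤ w * S := by gcongr; omega
            _ = u ^ (2 * k) - v ^ (2 * k) := hS.symm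
            _ ≤ u ^ (2 * k) := Nat.sub_le _ _
            _ = u * u ^ (2 * k - 1) := by rw [← pow_succ']; congr 1; omega
        calc S ≤ u ^ (2 * k - 1) := Nat.le_of_mul_le_mul_left h1 hupos
          _ ≤ c ^ (2 * k - 1) := by gcongr
          _ ≤ 2 * k * c ^ (2 * k - 1) := Nat.le_mul_of_pos_left _ (by omega)
    have h4XY : 4 * (X * Y) = w * S := by
      rw [← hS, pow_mul', pow_mul', hu']
      have : v ^ k = X - Y := by omega
      rw [this, Nat.sq_sub_sq]
      have e1 : X + Y + (X - Y) = 2 * X := by omega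
      have e2 : X + Y - (X - Y) = 2 * Y := by omega
      rw [e1, e2]; ring
    have hR : R (Y ^ 2 * (u * v) ^ k * X ^ 2) ≤ 1 * R (a * b * c) * S := by
      apply R_le_of one_ne_zero hSpos.ne' _ (by positivity)
      intro p hp hd
      rw [one_mul, ← hprod]
      have key : p ∣ u * v ∨ p ∣ X * Y := by
        rcases hp.dvd_mul.mp hd with h2 | h2
        · rcases hp.dvd_mul.mp h2 with h4 | h4
          · exact Or.inr (Dvd.dvd.mul_left (hp.dvd_of_dvd_pow h4) _)
          · exact Or.inl (hp.dvd_of_dvd_pow h4)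
        · exact Or.inr (Dvd.dvd.mul_right (hp.dvd_of_dvd_pow h2) _)
      rcases key with h2 | h2
      · exact Dvd.dvd.mul_right (Dvd.dvd.mul_right h2 _) _
      · have : p ∣ w * S := by rw [← h4XY]; exact Dvd.dvd.mul_left h2 _
        rcases hp.dvd_mul.mp this with h4 | h4
        · exact Dvd.dvd.mul_right (Dvd.dvd.mul_left h4 _) _
        · exact Dvd.dvd.mul_left h4 _
    calc R (Y ^ 2 * (u * v) ^ k * X ^ 2) ≤ 1 * R (a * b * c) * S := hR
      _ ≤ 1 * R (a * b * c) * (2 * k * c ^ (2 * k - 1)) := by gcongr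
      _ = (2 * k) * R (a * b * c) * c ^ (2 * k - 1) := by ring
      _ ≤ _ := by gcongr; omega

/-- two members of an abc triple, up to signs, with conditions at `2` and `3` -/
lemma good_pair {a b c : ℕ} (hab : Nat.Coprime a b) (hc : a + b = c) (ha : 0 < a) (hb : 0 < b) :
    ∃ u v : ℤ, (u * v * (u - v)).natAbs = a * b * c ∧ Odd u ∧ ¬ (3 : ℤ) ∣ u - v ∧
      Int.gcd u v = 1 ∧ |u| ≤ c ∧ |v| ≤ c ∧ (c : ℤ) ≤ 2 * max |u| |v| := by
  have hac : Int.gcd (c : ℤ) (a : ℤ) = 1 := by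
    rw [Int.gcd_natCast_natCast, ← hc]; simpa using hab.symm
  have hbc : Int.gcd (c : ℤ) (b : ℤ) = 1 := by
    rw [Int.gcd_natCast_natCast, ← hc]; simpa using hab
  have hab' : Int.gcd (a : ℤ) (b : ℤ) = 1 := by rw [Int.gcd_natCast_natCast]; exact hab
  have n3 : ¬ (3 ∣ a ∧ 3 ∣ b) := by
    rintro ⟨h1, h2⟩
    have := Nat.dvd_gcd h1 h2
    rw [Nat.Coprime] at hab
    omega
  have n2 : ¬ (2 ∣ a ∧ 2 ∣ b) := by
    rintro ⟨h1, h2⟩
    have := Nat.dvd_gcd h1 h2
    rw [Nat.Coprime] at hab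
    omega
  have abs_a : |(a : ℤ)| = a := Nat.abs_cast a
  have abs_b : |(b : ℤ)| = b := Nat.abs_cast b
  have abs_c : |(c : ℤ)| = c := Nat.abs_cast c
  have hcz : (a : ℤ) + b = c := by exact_mod_cast hc
  rcases Nat.even_or_odd c with hce | hco
  · have hoa : Odd a := by
      rw [← Nat.not_even_iff_odd]; intro he; apply n2
      have h1 := he.two_dvd; have h2 := hce.two_dvd; omega
    by_cases h3b : 3 ∣ b
    · refine ⟨a, -b, ?_, by exact_mod_cast hoa, ?_, by rw [Int.gcd_neg]; exact hab', ?_, ?_, ?_⟩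
      · have : (a : ℤ) * -b * (a - -b) = -((a * b * c : ℕ) : ℤ) := by
          push_cast; rw [← hcz]; ring
        rw [this, Int.natAbs_neg, Int.natAbs_natCast]
      · intro h; omega
      · omega
      · rw [abs_neg, abs_b]; omega
      · rw [abs_neg, abs_a, abs_b]; omega
    · refine ⟨a, c, ?_, by exact_mod_cast hoa, ?_, by rw [Int.gcd_comm]; exact hac, ?_, ?_, ?_⟩
      · have : (a : ℤ) * c * (a - c) = -((a * b * c : ℕ) : ℤ) := by
          push_cast; rw [← hcz]; ring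
        rw [this, Int.natAbs_neg, Int.natAbs_natCast]
      · intro h; omega
      · omega
      · omega
      · rw [abs_a, abs_c]; omega
  · by_cases h3b : 3 ∣ b
    · refine ⟨c, b, ?_, by exact_mod_cast hco, ?_, hbc, ?_, ?_, ?_⟩
      · have : (c : ℤ) * b * (c - b) = ((a * b * c : ℕ) : ℤ) := by
          push_cast; rw [← hcz]; ring
        rw [this, Int.natAbs_natCast]
      · intro h; omega
      · omega
      · omega
      · rw [abs_b, abs_c]; omega
    · refine ⟨c, a, ?_, by exact_mod_cast hco, ?_, hac, ?_, ?_, ?_⟩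
      · have : (c : ℤ) * a * (c - a) = ((a * b * c : ℕ) : ℤ) := by
          push_cast; rw [← hcz]; ring
        rw [this, Int.natAbs_natCast]
      · intro h; omega
      · omega
      · omega
      · rw [abs_a, abs_c]; omega

/-- positive integers from `x ^ 3 + y ^ 3 = z ^ 2` -/
lemma cubes_nat {x y z : ℤ} (hx : x ≠ 0) (hy : y ≠ 0) (hz : z ≠ 0) (h : x ^ 3 + y ^ 3 = z ^ 2)
    (hg : Int.gcd x y = 1) :
    ∃ a b c : ℕ, 0 < a ∧ 0 < b ∧ Nat.Coprime a b ∧ a + b = c ∧ Powers 2 3 3 a b c ∧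
      a * b * c = x.natAbs ^ 3 * y.natAbs ^ 3 * z.natAbs ^ 2 ∧
      x.natAbs ^ 3 ≤ c ∧ y.natAbs ^ 3 ≤ c := by
  have hx' := Int.natAbs_pos.mpr hx
  have hy' := Int.natAbs_pos.mpr hy
  have hz' := Int.natAbs_pos.mpr hz
  have hcop : Nat.Coprime (x.natAbs ^ 3) (y.natAbs ^ 3) := Nat.Coprime.pow _ _ hg
  have hzz : (z.natAbs : ℤ) ^ 2 = z ^ 2 := Int.natAbs_sq z
  have hxx : 0 < x.natAbs ^ 3 := by positivity
  have hyy : 0 < y.natAbs ^ 3 := by positivity
  have hzp : 0 < z ^ 2 := by positivity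
  rcases lt_or_gt_of_ne hx with hx0 | hx0 <;> rcases lt_or_gt_of_ne hy with hy0 | hy0
  · exfalso
    have h1 : x ^ 3 < 0 := by
      have : Odd 3 := by decide
      exact this.pow_neg hx0
    have h2 : y ^ 3 < 0 := by
      have : Odd 3 := by decide
      exact this.pow_neg hy0
    linarith
  · have e1 : (x.natAbs : ℤ) = -x := by omega
    have e2 : (y.natAbs : ℤ) = y := by omega
    have hsum : z.natAbs ^ 2 + x.natAbs ^ 3 = y.natAbs ^ 3 := by
      have : ((z.natAbs : ℤ) ^ 2 + (x.natAbs : ℤ) ^ 3 = (y.natAbs : ℤ) ^ 3) := by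
        rw [hzz, e1, e2, ← h]; ring
      exact_mod_cast this
    refine ⟨z.natAbs ^ 2, x.natAbs ^ 3, y.natAbs ^ 3, by positivity, hxx, ?_, hsum,
      ⟨z.natAbs, x.natAbs, y.natAbs, List.Perm.refl _⟩, by ring, by omega, le_rfl⟩
    have : Nat.Coprime (z.natAbs ^ 2 + x.natAbs ^ 3) (x.natAbs ^ 3) := by
      rw [hsum]; exact hcop.symm
    exact Nat.coprime_add_self_left.mp this
  · have e1 : (x.natAbs : ℤ) = x := by omega
    have e2 : (y.natAbs : ℤ) = -y := by omega
    have hsum : z.natAbs ^ 2 + y.natAbs ^ 3 = x.natAbs ^ 3 := by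
      have : ((z.natAbs : ℤ) ^ 2 + (y.natAbs : ℤ) ^ 3 = (x.natAbs : ℤ) ^ 3) := by
        rw [hzz, e1, e2, ← h]; ring
      exact_mod_cast this
    refine ⟨z.natAbs ^ 2, y.natAbs ^ 3, x.natAbs ^ 3, by positivity, hyy, ?_, hsum,
      ⟨z.natAbs, y.natAbs, x.natAbs, List.Perm.refl _⟩, by ring, le_rfl, by omega⟩
    have : Nat.Coprime (z.natAbs ^ 2 + y.natAbs ^ 3) (y.natAbs ^ 3) := by
      rw [hsum]; exact hcop
    exact Nat.coprime_add_self_left.mp this
  · have e1 : (x.natAbs : ℤ) = x := by omega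
    have e2 : (y.natAbs : ℤ) = y := by omega
    have hsum : x.natAbs ^ 3 + y.natAbs ^ 3 = z.natAbs ^ 2 := by
      have : ((x.natAbs : ℤ) ^ 3 + (y.natAbs : ℤ) ^ 3 = (z.natAbs : ℤ) ^ 2) := by
        rw [hzz, e1, e2, ← h]
      exact_mod_cast this
    refine ⟨x.natAbs ^ 3, y.natAbs ^ 3, z.natAbs ^ 2, hxx, hyy, hcop, hsum,
      ⟨z.natAbs, x.natAbs, y.natAbs, ?_⟩, by ring, by omega, by omega⟩
    exact List.perm_append_comm (l₁ := [x.natAbs ^ 3, y.natAbs ^ 3]) (l₂ := [z.natAbs ^ 2])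

theorem two_three_three (h : ABCFor (Powers 2 3 3)) : ABCFor (fun _ _ _ => True) := by
  refine transfer (D := 12) (K := 2 ^ 12 * 200 ^ 3 + 4 * 1000) (n0 := 3) (by norm_num)
    (by norm_num) ?_ h
  intro a b c ha hb hab hc h3
  obtain ⟨u, v, huv, hodd, h3uv, hgcd, huc, hvc, hcm⟩ := good_pair hab hc ha hb
  set x : ℤ := u * (u ^ 3 + 8 * v ^ 3) with hx
  set y : ℤ := 4 * v * (v ^ 3 - u ^ 3) with hy
  set z : ℤ := u ^ 6 - 20 * u ^ 3 * v ^ 3 - 8 * v ^ 6 with hz
  have hid : x ^ 3 + y ^ 3 = z ^ 2 := by rw [hx, hy, hz]; ring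
  have habc0 : u * v * (u - v) ≠ 0 := by
    intro h0
    rw [h0] at huv
    have : 0 < a * b * c := by positivity
    simp at huv
    omega
  have hu0 : u ≠ 0 := left_ne_zero_of_mul (left_ne_zero_of_mul habc0)
  have hv0 : v ≠ 0 := right_ne_zero_of_mul (left_ne_zero_of_mul habc0)
  have hd0 : u - v ≠ 0 := right_ne_zero_of_mul habc0
  have hu3 : Odd (u ^ 3) := hodd.pow
  have hxo : Odd x := by
    rw [hx]
    apply hodd.mul
    apply hu3.add_even
    exact ⟨4 * v ^ 3, by ring⟩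
  have hzo : Odd z := by
    rw [hz, show u ^ 6 - 20 * u ^ 3 * v ^ 3 - 8 * v ^ 6 =
      u ^ 6 + (-(20 * u ^ 3 * v ^ 3) - 8 * v ^ 6) by ring]
    apply hodd.pow.add_even
    exact ⟨-(10 * u ^ 3 * v ^ 3) - 4 * v ^ 6, by ring⟩
  have hx0 : x ≠ 0 := by rintro h0; rw [h0] at hxo; exact absurd hxo (by decide)
  have hz0 : z ≠ 0 := by rintro h0; rw [h0] at hzo; exact absurd hzo (by decide)
  have hq0 : u ^ 2 + u * v + v ^ 2 ≠ 0 := by
    have : 0 < u ^ 2 + u * v + v ^ 2 := by
      nlinarith [sq_nonneg (u + v), sq_pos_of_ne_zero hu0, sq_pos_of_ne_zero hv0]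
    exact this.ne'
  have hy' : y = -(4 * v * (u - v) * (u ^ 2 + u * v + v ^ 2)) := by rw [hy]; ring
  have hy0 : y ≠ 0 := by
    rw [hy']
    exact neg_ne_zero.mpr (mul_ne_zero (mul_ne_zero (mul_ne_zero (by norm_num) hv0) hd0) hq0)
  have hg : Int.gcd x y = 1 := by
    by_contra hne
    obtain ⟨p, hp, hpx, hpy⟩ := Nat.Prime.not_coprime_iff_dvd.mp (show ¬ Nat.Coprime x.natAbs y.natAbs from hne)
    have hpi := Nat.prime_iff_prime_int.mp hp
    have hpx' : (p : ℤ) ∣ x := Int.natCast_dvd.mpr hpx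
    have hpy' : (p : ℤ) ∣ y := Int.natCast_dvd.mpr hpy
    have hnuv : ¬ ((p : ℤ) ∣ u ∧ (p : ℤ) ∣ v) := by
      rintro ⟨h1, h2⟩
      have h4 : (p : ℤ) ∣ (Int.gcd u v : ℤ) := Int.dvd_coe_gcd h1 h2
      rw [hgcd] at h4
      have h5 : p ∣ 1 := by exact_mod_cast h4
      exact hp.one_lt.ne' (Nat.dvd_one.mp h5)
    have hp2 : p ≠ 2 := by
      rintro rfl
      have h1 : Even x := even_iff_two_dvd.mpr (by exact_mod_cast hpx')
      exact (Int.not_even_iff_odd.mpr hxo) h1
    have hpy2 : (p : ℤ) ∣ v ∨ (p : ℤ) ∣ v ^ 3 - u ^ 3 := by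
      rw [hy] at hpy'
      rcases hpi.dvd_or_dvd hpy' with h1 | h1
      · rcases hpi.dvd_or_dvd h1 with h2 | h2
        · exfalso
          have h4 : (p : ℤ) ∣ (2 : ℤ) := hpi.dvd_of_dvd_pow (n := 2) (by norm_num; exact h2)
          have h5 : p ∣ 2 := by exact_mod_cast h4
          exact hp2 ((Nat.prime_dvd_prime_iff_eq hp Nat.prime_two).mp h5)
        · exact Or.inl h2
      · exact Or.inr h1
    rw [hx] at hpx'
    rcases hpi.dvd_or_dvd hpx' with h1 | h1
    · rcases hpy2 with h2 | h2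
      · exact hnuv ⟨h1, h2⟩
      · apply hnuv
        refine ⟨h1, hpi.dvd_of_dvd_pow (n := 3) ?_⟩
        have h4 : (p : ℤ) ∣ u ^ 3 := dvd_pow h1 (by norm_num)
        have := dvd_add h2 h4
        rwa [sub_add_cancel] at this
    · rcases hpy2 with h2 | h2
      · apply hnuv
        refine ⟨hpi.dvd_of_dvd_pow (n := 3) ?_, h2⟩
        have h4 : (p : ℤ) ∣ 8 * v ^ 3 := Dvd.dvd.mul_left (dvd_pow h2 (by norm_num)) 8
        have := dvd_sub h1 h4
        rwa [add_sub_cancel_right] at this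
      · have h4 : (p : ℤ) ∣ 9 * v ^ 3 := by
          have := dvd_add h1 h2
          have e : u ^ 3 + 8 * v ^ 3 + (v ^ 3 - u ^ 3) = 9 * v ^ 3 := by ring
          rwa [e] at this
        rcases hpi.dvd_or_dvd h4 with h5 | h5
        · have h6 : (p : ℤ) ∣ (3 : ℤ) := hpi.dvd_of_dvd_pow (n := 2) (by norm_num; exact h5)
          have h7 : p ∣ 3 := by exact_mod_cast h6
          have h8 := (Nat.prime_dvd_prime_iff_eq hp Nat.prime_three).mp h7
          subst h8
          apply h3uv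
          have h9 : ((3 : ℕ) : ℤ) ∣ u - v := by
            have h10 : (((3 : ℕ) : ℤ)) ∣ (u - v) ^ 3 := by
              have e : (u - v) ^ 3 = -(v ^ 3 - u ^ 3) + 3 * (u * v * (v - u)) := by ring
              rw [e]
              exact dvd_add ((dvd_neg).mpr h2) (by push_cast; exact dvd_mul_right _ _)
            exact hpi.dvd_of_dvd_pow h10
          exact_mod_cast h9
        · apply hnuv
          have h6 := hpi.dvd_of_dvd_pow h5
          refine ⟨hpi.dvd_of_dvd_pow (n := 3) ?_, h6⟩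
          have h7 : (p : ℤ) ∣ 8 * v ^ 3 := Dvd.dvd.mul_left h5 8
          have := dvd_sub h1 h7
          rwa [add_sub_cancel_right] at this
  obtain ⟨a', b', c', ha', hb', hab', hc', hP, hprod, hcx, hcy⟩ :=
    cubes_nat hx0 hy0 hz0 hid hg
  -- size
  have hszlo : sz (u, v) ^ 4 ≤ 200 * sz (x, y) := by
    have m0 := abs_le.mp (mono (x := (u, v)) 3 0)
    have m1 := abs_le.mp (mono (x := (u, v)) 2 1)
    have m2 := abs_le.mp (mono (x := (u, v)) 1 2)
    have m3 := abs_le.mp (mono (x := (u, v)) 0 3)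
    norm_num at m0 m1 m2 m3
    have := lo_of (x := (u, v)) (y := (x, y)) (d := 4) (e := 3) (N := 36) (C := 100)
      (a := 36 * u ^ 3 - 32 * v ^ 3) (b := 64 * (u * v ^ 2))
      (a' := 4 * (u ^ 2 * v)) (b' := u ^ 3 + 9 * v ^ 3)
      (by norm_num) (by simp only [hx, hy]; ring) (by simp only [hx, hy]; ring)
      (by rw [abs_le]; constructor <;> linarith) (by rw [abs_le]; constructor <;> linarith)
      (by rw [abs_le]; constructor <;> linarith) (by rw [abs_le]; constructor <;> linarith)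
      (by norm_num) (by norm_num)
    norm_num at this ⊢
    exact this
  have hszc : sz (x, y) ^ 3 ≤ c' := by
    unfold sz
    rcases max_choice |x| |y| with hm | hm
    · simp only [hm]; rw [← Int.natCast_natAbs]; exact_mod_cast hcx
    · simp only [hm]; rw [← Int.natCast_natAbs]; exact_mod_cast hcy
  have hs0 := sz_nonneg (u, v)
  have hs1 := sz_nonneg (x, y)
  refine ⟨a', b', c', ha', hb', hab', hc', hP, ?_, ?_⟩
  · have : (c : ℤ) ^ 12 ≤ (2 ^ 12 * 200 ^ 3 + 4 * 1000 : ℕ) * c' := by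
      calc (c : ℤ) ^ 12 ≤ (2 * sz (u, v)) ^ 12 := by gcongr; exact hcm
        _ = 2 ^ 12 * (sz (u, v) ^ 4) ^ 3 := by ring
        _ ≤ 2 ^ 12 * (200 * sz (x, y)) ^ 3 := by gcongr
        _ = (2 ^ 12 * 200 ^ 3) * sz (x, y) ^ 3 := by ring
        _ ≤ (2 ^ 12 * 200 ^ 3) * c' := by gcongr
        _ ≤ _ := by push_cast; gcongr; norm_num
    exact_mod_cast this
  · -- radical
    set E : ℤ := (u ^ 3 + 8 * v ^ 3) * (u ^ 2 + u * v + v ^ 2) * z with hE
    have hE0 : E ≠ 0 := by
      rw [hE]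
      refine mul_ne_zero (mul_ne_zero ?_ hq0) hz0
      exact right_ne_zero_of_mul (by rw [← hx]; exact hx0)
    have hcz0 : (0 : ℤ) ≤ c := by positivity
    have hEle : |E| ≤ 1000 * (c : ℤ) ^ 11 := by
      have mm : ∀ i j : ℕ, |u ^ i * v ^ j| ≤ (c : ℤ) ^ (i + j) := by
        intro i j
        rw [abs_mul, abs_pow, abs_pow, pow_add]
        gcongr
      have b1 : |u ^ 3 + 8 * v ^ 3| ≤ 9 * (c : ℤ) ^ 3 := by
        have m0 := abs_le.mp (mm 3 0)
        have m3 := abs_le.mp (mm 0 3)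
        norm_num at m0 m3
        rw [abs_le]; constructor <;> linarith
      have b2 : |u ^ 2 + u * v + v ^ 2| ≤ 3 * (c : ℤ) ^ 2 := by
        have m0 := abs_le.mp (mm 2 0)
        have m1 := abs_le.mp (mm 1 1)
        have m3 := abs_le.mp (mm 0 2)
        norm_num at m0 m1 m3
        rw [abs_le]; constructor <;> linarith
      have b3 : |z| ≤ 29 * (c : ℤ) ^ 6 := by
        have m0 := abs_le.mp (mm 6 0)
        have m1 := abs_le.mp (mm 3 3)
        have m3 := abs_le.mp (mm 0 6)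
        norm_num at m0 m1 m3
        rw [abs_le, hz]; constructor <;> linarith
      rw [hE, abs_mul, abs_mul]
      calc |u ^ 3 + 8 * v ^ 3| * |u ^ 2 + u * v + v ^ 2| * |z|
          ≤ (9 * (c : ℤ) ^ 3) * (3 * (c : ℤ) ^ 2) * (29 * (c : ℤ) ^ 6) := by gcongr
        _ = 783 * (c : ℤ) ^ 11 := by ring
        _ ≤ _ := by gcongr; norm_num
    have hR : R (a' * b' * c') ≤ 4 * R (a * b * c) * E.natAbs := by
      apply R_le_of (by norm_num) (Int.natAbs_ne_zero.mpr hE0) _ (by positivity)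
      intro p hp hd
      have hpi := Nat.prime_iff_prime_int.mp hp
      have hxyz : (p : ℤ) ∣ x * y * z := by
        rw [hprod] at hd
        apply Int.natCast_dvd.mpr
        rw [Int.natAbs_mul, Int.natAbs_mul]
        rcases hp.dvd_mul.mp hd with h1 | h1
        · rcases hp.dvd_mul.mp h1 with h2 | h2
          · exact Dvd.dvd.mul_right (Dvd.dvd.mul_right (hp.dvd_of_dvd_pow h2) _) _
          · exact Dvd.dvd.mul_right (Dvd.dvd.mul_left (hp.dvd_of_dvd_pow h2) _) _
        · exact Dvd.dvd.mul_left (hp.dvd_of_dvd_pow h1) _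
      have e : x * y * z = -(4 * (u * v * (u - v)) * E) := by
        rw [hE, hy', hx]; ring
      rw [e, dvd_neg] at hxyz
      have h4 := Int.natCast_dvd.mp hxyz
      rw [Int.natAbs_mul, Int.natAbs_mul, huv] at h4
      exact h4
    have hR' : (R (a' * b' * c') : ℤ) ≤ (2 ^ 12 * 200 ^ 3 + 4 * 1000 : ℕ) * R (a * b * c) *
        (c : ℤ) ^ (12 - 1) := by
      calc (R (a' * b' * c') : ℤ) ≤ 4 * R (a * b * c) * |E| := by
            rw [← Int.natCast_natAbs]; exact_mod_cast hR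
        _ ≤ 4 * R (a * b * c) * (1000 * (c : ℤ) ^ 11) := by gcongr
        _ = (4 * 1000) * R (a * b * c) * (c : ℤ) ^ 11 := by ring
        _ ≤ _ := by push_cast; gcongr; norm_num
    exact_mod_cast hR'

end Pool.Agent.Q239.ABC
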